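import Pool.Agent.Lib_MP_390115_uh.HDef

/-!
# The black lemma
-/

namespace Pool.Agent.BHalf

open Finset

private theorem bk_card {Q : Type} [DecidableEq Q] (r : Q → Q → Prop) [DecidableRel r] (s t : Finset Q) :
    ((s ×ˢ t).filter fun e => r e.1 e.2).card = ∑ x ∈ s, (t.filter (r x)).card := by
  rw [Finset.card_filter, Finset.sum_product]
  refine Finset.sum_congr rfl fun x _ => ?_
  rw [Finset.card_filter]

/-- The black lemma: `s1, s2, s3` are parts, `p1, p2, p3` pieces of them in increasing order. -/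
theorem black_lemma {Q : Type} [PartialOrder Q] [Fintype Q] [DecidableEq Q] (Gr : SimpleGraph Q)
    [DecidableRel Gr.Adj] (hGr : ∀ x y, Gr.Adj x y ↔ x < y ∨ y < x)
    (ε κ δ : ℝ) (hε : 0 < ε) (hεκ : ε ≤ κ) (hδ : ε + ε / κ ≤ δ) (s1 s2 s3 p1 p2 p3 : Finset Q)
    (h1 : p1 ⊆ s1) (h2 : p2 ⊆ s2) (h3 : p3 ⊆ s3) (k1 : κ * s1.card ≤ p1.card)
    (k2 : κ * s2.card ≤ p2.card) (k3 : κ * s3.card ≤ p3.card)
    (n1 : s1.Nonempty) (n2 : s2.Nonempty) (n3 : s3.Nonempty)
    (u12 : Gr.IsUniform ε s1 s2) (u23 : Gr.IsUniform ε s2 s3)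
    (d12 : δ ≤ (Gr.edgeDensity s1 s2 : ℝ)) (d23 : δ ≤ (Gr.edgeDensity s2 s3 : ℝ))
    (o12 : ∀ x ∈ p1, ∀ y ∈ p2, ¬ y < x) (o23 : ∀ x ∈ p2, ∀ y ∈ p3, ¬ y < x) :
    (Nat.card {z : Q × Q // z.1 ∈ p1 ∧ z.2 ∈ p3 ∧ ¬ SL z.1 z.2} : ℝ) ≤
      2 * ε * s1.card * s3.card := by
  classical
  have hκ : 0 < κ := lt_of_lt_of_le hε hεκ
  have c1 : (0 : ℝ) < s1.card := by exact_mod_cast n1.card_pos
  have c2 : (0 : ℝ) < s2.card := by exact_mod_cast n2.card_pos
  have c3 : (0 : ℝ) < s3.card := by exact_mod_cast n3.card_pos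
  have q2 : (0 : ℝ) < p2.card := lt_of_lt_of_le (mul_pos hκ c2) k2
  have hεκ0 : 0 < ε / κ := div_pos hε hκ
  set X : Finset Q := p1.filter (fun x => ((p2.filter (Gr.Adj x)).card : ℝ) < ε * s2.card) with hX
  -- claim 1
  have hX1 : (X.card : ℝ) ≤ ε * s1.card := by
    by_contra hcon
    push Not at hcon
    have hXpos : (0 : ℝ) < X.card := lt_trans (mul_pos hε c1) hcon
    have hu := u12 (s' := X) ((Finset.filter_subset _ _).trans h1) (t' := p2) h2
      (by rw [mul_comm]; exact hcon.le)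
      (by rw [mul_comm]; exact (mul_le_mul_of_nonneg_right hεκ c2.le).trans k2)
    have hlow : ε / κ < (Gr.edgeDensity X p2 : ℝ) := by
      have := (abs_lt.mp hu).1
      linarith
    have he : ((Gr.interedges X p2).card : ℝ) ≤ X.card * (ε * s2.card) := by
      have hb : (Gr.interedges X p2).card = ∑ x ∈ X, (p2.filter (Gr.Adj x)).card :=
        bk_card Gr.Adj X p2
      rw [hb]
      push_cast
      rw [← nsmul_eq_mul]
      exact Finset.sum_le_card_nsmul X _ _ fun x hx => ((Finset.mem_filter.mp hx).2).le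
    have hd : (Gr.edgeDensity X p2 : ℝ) ≤ ε / κ := by
      rw [SimpleGraph.edgeDensity_def]
      push_cast
      rw [div_le_div_iff₀ (mul_pos hXpos q2) hκ]
      calc ((Gr.interedges X p2).card : ℝ) * κ ≤ X.card * (ε * s2.card) * κ :=
            mul_le_mul_of_nonneg_right he hκ.le
        _ = X.card * ε * (κ * s2.card) := by ring
        _ ≤ X.card * ε * p2.card := mul_le_mul_of_nonneg_left k2 (mul_nonneg hXpos.le hε.le)
        _ = ε * (X.card * p2.card) := by ring
    linarith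
  -- claim 2
  have hZ : ∀ x ∈ p1, x ∉ X → ((p3.filter (fun z => ¬ SL x z)).card : ℝ) ≤ ε * s3.card := by
    intro x hx hxX
    by_contra hcon
    push Not at hcon
    have hN : ε * s2.card ≤ ((p2.filter (Gr.Adj x)).card : ℝ) := by
      by_contra h
      push Not at h
      exact hxX (Finset.mem_filter.mpr ⟨hx, h⟩)
    have hu := u23 (s' := p2.filter (Gr.Adj x)) ((Finset.filter_subset _ _).trans h2)
      (t' := p3.filter (fun z => ¬ SL x z)) ((Finset.filter_subset _ _).trans h3)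
      (by rw [mul_comm]; exact hN) (by rw [mul_comm]; exact hcon.le)
    have hlow : 0 < (Gr.edgeDensity (p2.filter (Gr.Adj x)) (p3.filter (fun z => ¬ SL x z)) : ℝ) := by
      have := (abs_lt.mp hu).1
      linarith
    have hne : (Gr.interedges (p2.filter (Gr.Adj x)) (p3.filter (fun z => ¬ SL x z))).Nonempty := by
      by_contra h
      rw [Finset.not_nonempty_iff_eq_empty] at h
      rw [SimpleGraph.edgeDensity_def, h] at hlow
      simp at hlow
    obtain ⟨⟨y, z⟩, hyz⟩ := hne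
    rw [SimpleGraph.mem_interedges_iff] at hyz
    obtain ⟨hy, hz, hadj⟩ := hyz
    rw [Finset.mem_filter] at hy hz
    have hyz' : y < z := by
      rcases (hGr y z).mp hadj with h | h
      · exact h
      · exact absurd h (o23 y hy.1 z hz.1)
    have hxy : x < y := by
      rcases (hGr x y).mp hy.2 with h | h
      · exact h
      · exact absurd h (o12 x hx y hy.1)
    exact hz.2 ⟨y, hxy, hyz'⟩
  -- total
  have hcard : Nat.card {z : Q × Q // z.1 ∈ p1 ∧ z.2 ∈ p3 ∧ ¬ SL z.1 z.2} =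
      ∑ x ∈ p1, (p3.filter (fun z => ¬ SL x z)).card := by
    rw [← bk_card (fun x z => ¬ SL x z) p1 p3, Nat.card_eq_fintype_card, Fintype.card_subtype]
    congr 1
    ext z
    simp only [Finset.mem_filter, Finset.mem_univ, true_and, Finset.mem_product, and_assoc]
  rw [hcard]
  push_cast
  have hsplit : ∑ x ∈ p1, ((p3.filter (fun z => ¬ SL x z)).card : ℝ) ≤
      ∑ x ∈ p1, ((if x ∈ X then (s3.card : ℝ) else 0) + ε * s3.card) := by
    refine Finset.sum_le_sum fun x hx => ?_
    by_cases hxX : x ∈ X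
    · rw [if_pos hxX]
      have hle : ((p3.filter (fun z => ¬ SL x z)).card : ℝ) ≤ s3.card := by
        exact_mod_cast Finset.card_le_card ((Finset.filter_subset _ _).trans h3)
      have := mul_pos hε c3
      linarith
    · rw [if_neg hxX, zero_add]
      exact hZ x hx hxX
  refine hsplit.trans ?_
  rw [Finset.sum_add_distrib, Finset.sum_const, ← Finset.sum_filter, Finset.sum_const, nsmul_eq_mul,
    nsmul_eq_mul]
  have hfX : (p1.filter (fun x => x ∈ X)) = X := by
    ext x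
    rw [Finset.mem_filter]
    exact ⟨fun h => h.2, fun h => ⟨(Finset.mem_filter.mp h).1, h⟩⟩
  rw [hfX]
  have hp1 : (p1.card : ℝ) ≤ s1.card := by exact_mod_cast Finset.card_le_card h1
  have e1 : (X.card : ℝ) * s3.card ≤ ε * s1.card * s3.card :=
    mul_le_mul_of_nonneg_right hX1 c3.le
  have e2 : (p1.card : ℝ) * (ε * s3.card) ≤ s1.card * (ε * s3.card) :=
    mul_le_mul_of_nonneg_right hp1 (mul_pos hε c3).le
  nlinarith [e1, e2]

end Pool.Agent.BHalf
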