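import Mathlib

/-!
# Time blocks

The elements of a finite poset are distributed over `B` consecutive blocks of a linear extension, at most
`n / B + 1` in every block.
-/

set_option autoImplicit false

namespace Pool.Agent.BHalf

/-- a linear extension, as an injective strictly monotone map to `Fin n` -/
private theorem blk_ext (Q : Type) [PartialOrder Q] [Fintype Q] :
    ∃ e : Q → Fin (Fintype.card Q), Function.Injective e ∧ ∀ x y, x < y → e x < e y := by
  classical
  have hf : Fintype (LinearExtension Q) := inferInstanceAs (Fintype Q)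
  have hc : Fintype.card (LinearExtension Q) = Fintype.card Q := Fintype.card_congr (Equiv.refl Q)
  let g : LinearExtension Q ≃o Fin (Fintype.card Q) := (Fintype.orderIsoFinOfCardEq _ hc).symm
  have hi : Function.Injective fun x : Q => g (toLinearExtension x) := by
    intro x y h
    exact g.injective h
  refine ⟨fun x => g (toLinearExtension x), hi, ?_⟩
  intro x y h
  refine lt_of_le_of_ne (g.monotone (toLinearExtension.monotone h.le)) ?_
  intro h2
  exact h.ne (hi h2)

/-- Time blocks (file Blk.lean). -/
theorem exists_bl (Q : Type) [PartialOrder Q] [Fintype Q] (B : ℕ) (hB : 0 < B) :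
    ∃ bl : Q → Fin B, (∀ x y, x < y → bl x ≤ bl y) ∧
      ∀ k, Nat.card {x : Q // bl x = k} ≤ Fintype.card Q / B + 1 := by
  classical
  obtain ⟨e, hi, he⟩ := blk_ext Q
  obtain ⟨c, hc⟩ : ∃ c, c = Fintype.card Q / B + 1 := ⟨_, rfl⟩
  have hc0 : 0 < c := by rw [hc]; exact Nat.succ_pos _
  have hlt : ∀ x, (e x : ℕ) / c < B := by
    intro x
    have h2 : Fintype.card Q < B * c := by rw [hc]; exact Nat.lt_mul_div_succ _ hB
    exact (Nat.div_lt_iff_lt_mul hc0).2 ((e x).2.trans h2)
  refine ⟨fun x => ⟨(e x : ℕ) / c, hlt x⟩, ?_, ?_⟩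
  · intro x y h
    exact Nat.div_le_div_right (Fin.le_def.1 (he x y h).le)
  · intro k
    rw [← hc]
    have hinj : Function.Injective
        (fun x : {x : Q // (⟨(e x : ℕ) / c, hlt x⟩ : Fin B) = k} =>
          (⟨(e x.1 : ℕ) % c, Nat.mod_lt _ hc0⟩ : Fin c)) := by
      intro x y h
      have h1 : (e x.1 : ℕ) % c = (e y.1 : ℕ) % c := congrArg Fin.val h
      have h2 : (e x.1 : ℕ) / c = (e y.1 : ℕ) / c := by
        have := congrArg Fin.val (x.2.trans y.2.symm)
        exact this
      have h3 : (e x.1 : ℕ) = (e y.1 : ℕ) := by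
        rw [← Nat.div_add_mod (e x.1 : ℕ) c, ← Nat.div_add_mod (e y.1 : ℕ) c, h1, h2]
      exact Subtype.ext (hi (Fin.ext h3))
    have := Nat.card_le_card_of_injective _ hinj
    simpa using this

end Pool.Agent.BHalf
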