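import Mathlib

/-! Counting functions with few exceptions. -/

set_option autoImplicit false

namespace Pool.Agent.BHalf

/-- Counting functions with few exceptions. -/
theorem cnt_fun {P : Type} [Fintype P] [DecidableEq P] (al : P → Finset (Fin 5))
    (e : P → ℕ) (hal : ∀ q, (al q).card ≤ 2 ^ e q) (m : ℕ) :
    Nat.card {f : P → Fin 5 // ∃ X : Finset P, X.card ≤ m ∧ ∀ q, q ∉ X → f q ∈ al q} ≤
      (∑ j ∈ Finset.range (m + 1), (Fintype.card P).choose j) * 5 ^ m * 2 ^ ∑ q, e q := by
  classical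
  set T : Finset P → Finset (P → Fin 5) := fun X =>
    Fintype.piFinset fun q => if q ∈ X then Finset.univ else al q with hT
  set S : Finset (Finset P) := (Finset.range (m + 1)).biUnion fun j =>
    Finset.powersetCard j (Finset.univ : Finset P) with hS
  have hSm : ∀ X : Finset P, X.card ≤ m → X ∈ S := by
    intro X hX
    rw [hS, Finset.mem_biUnion]
    exact ⟨X.card, Finset.mem_range.2 (by omega),
      Finset.mem_powersetCard.2 ⟨Finset.subset_univ X, rfl⟩⟩
  have hSc : ∀ X ∈ S, X.card ≤ m := by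
    intro X hX
    rw [hS, Finset.mem_biUnion] at hX
    obtain ⟨j, hj, hX⟩ := hX
    have h1 := (Finset.mem_powersetCard.1 hX).2
    have h2 := Finset.mem_range.1 hj
    omega
  have hScard : S.card ≤ ∑ j ∈ Finset.range (m + 1), (Fintype.card P).choose j := by
    refine (Finset.card_biUnion_le).trans (le_of_eq ?_)
    refine Finset.sum_congr rfl fun j _ => ?_
    rw [Finset.card_powersetCard, Finset.card_univ]
  have hTc : ∀ X ∈ S, (T X).card ≤ 5 ^ m * 2 ^ ∑ q, e q := by
    intro X hX
    have h1 : (T X).card ≤ ∏ q, ((if q ∈ X then 5 else 1) * 2 ^ e q) := by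
      rw [hT]
      simp only
      rw [Fintype.card_piFinset]
      refine Finset.prod_le_prod' fun q _ => ?_
      by_cases hq : q ∈ X
      · rw [if_pos hq, if_pos hq, Finset.card_univ, Fintype.card_fin]
        have := Nat.one_le_two_pow (n := e q)
        omega
      · rw [if_neg hq, if_neg hq, one_mul]
        exact hal q
    refine h1.trans ?_
    rw [Finset.prod_mul_distrib, Finset.prod_pow_eq_pow_sum, Finset.prod_ite_mem,
      Finset.univ_inter, Finset.prod_const]
    exact Nat.mul_le_mul_right _ (Nat.pow_le_pow_right (by norm_num) (hSc X hX))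
  have hsub : {f : P → Fin 5 | ∃ X : Finset P, X.card ≤ m ∧ ∀ q, q ∉ X → f q ∈ al q} ⊆
      ((S.biUnion T : Finset (P → Fin 5)) : Set (P → Fin 5)) := by
    rintro f ⟨X, hX, hf⟩
    rw [Finset.mem_coe, Finset.mem_biUnion]
    refine ⟨X, hSm X hX, ?_⟩
    rw [hT]
    simp only [Fintype.mem_piFinset]
    intro q
    by_cases hq : q ∈ X
    · rw [if_pos hq]
      exact Finset.mem_univ _
    · rw [if_neg hq]
      exact hf q hq
  have h2 : Nat.card {f : P → Fin 5 // ∃ X : Finset P, X.card ≤ m ∧ ∀ q, q ∉ X → f q ∈ al q} ≤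
      (S.biUnion T).card := by
    have h3 := Set.ncard_le_ncard hsub (Finset.finite_toSet _)
    rw [Set.ncard_coe_finset] at h3
    exact h3
  refine h2.trans ((Finset.card_biUnion_le).trans ?_)
  calc ∑ X ∈ S, (T X).card ≤ ∑ _X ∈ S, 5 ^ m * 2 ^ ∑ q, e q := Finset.sum_le_sum hTc
    _ = S.card * (5 ^ m * 2 ^ ∑ q, e q) := by rw [Finset.sum_const, smul_eq_mul]
    _ ≤ (∑ j ∈ Finset.range (m + 1), (Fintype.card P).choose j) * (5 ^ m * 2 ^ ∑ q, e q) :=
        Nat.mul_le_mul_right _ hScard
    _ = _ := by rw [mul_assoc]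

end Pool.Agent.BHalf
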