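import Pool.Agent.Lib_MP_390115_uh.Tmpl

/-!
# Embedding in the scheme of a template
-/

namespace Pool.Agent.BHalf

open Pool.Agent.Lib_MP_390115_co (CoverEmbeds IsCoverUniversal b)

/-- the order of the labels of a template -/
noncomputable def ordT {K M n : ℕ} (t : Tm K M n) (m : ℕ) : PartialOrder (LamT t m) :=
  (sch3_embeds (schT t m)).choose

theorem eb1 : ∀ g g' hq tpq tqp : Bool, ((g || g') = true → hq = false) →
    ebits g g' true hq tpq tqp = if (g || g') && tpq then 1 else 0 := by
  decide

theorem eb2 : ∀ g g' hq tpq tqp : Bool,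
    ebits g g' false hq tpq tqp =
      (if g || g' then 1 else 0) + if (g || g') && (hq && !tqp) then 1 else 0 := by
  decide

theorem tm_embeds {K M n m : ℕ} (hM : 0 < M) (R : Type) [PartialOrder R] [Fintype R]
    (hn : Fintype.card R ≤ n) (c : R → Fin K) (G Bl : Fin K → Fin K → Prop)
    (hG : ∀ i j, G i j → ¬ G j i ∧ ¬ Bl i j ∧ ¬ Bl j i) (hB : ∀ i j, Bl i j → ¬ Bl j i)
    (htri : ∀ i j k, (G i j ∨ G j i) → (G j k ∨ G k j) → ¬ (G i k ∨ G k i))
    (SS : R → R → Prop) (hSS : ∀ x y, SS x y → x < y)
    (hSS2 : ∀ x w y : R, x < w → w < y → SS x y)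
    (hbad : ∀ x, Nat.card {y : R // ¬ GoodS c G Bl SS x y} ≤ m) :
    ∃ t : Tm K M n, Valid t (n / 2 + n / M + K * M) ∧ @CovEmb R (LamT t m) _ (ordT t m) SS := by
  classical
  obtain ⟨r, hv, two, hhv, hc1, hc2⟩ := cost_split K M n hM hn c G htri
  let f : R → Fin K × Fin M := fun x => (c x, r x)
  let N : Fin K × Fin M → ℕ := fun i => Fintype.card {x // f x = i}
  have hN : ∀ i, N i < n + 1 := fun i =>
    Nat.lt_succ_of_le ((Fintype.card_subtype_le _).trans hn)
  let t : Tm K M n := (fun i => ⟨N i, hN i⟩, fun i j => decide (G i j), fun i j => decide (Bl i j),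
    fun i => decide (hv i), fun i a b => decide (two i a b))
  let pos : R ≃ PT t := (Equiv.sigmaFiberEquiv f).symm.trans
    (Equiv.sigmaCongrRight fun i => Fintype.equivFin {x // f x = i})
  have hp : ∀ x, (pos x).1 = f x := fun x => rfl
  have hq : ∀ q, q.1 = f (pos.symm q) := fun q => by
    have := hp (pos.symm q)
    rwa [Equiv.apply_symm_apply] at this
  have hX : ∀ x, (Finset.univ.filter fun q : PT t => ¬ GoodS c G Bl SS x (pos.symm q)).card ≤ m := by
    intro x
    refine le_trans (le_of_eq ?_) (hbad x)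
    rw [Nat.card_eq_fintype_card, Fintype.card_subtype]
    refine Finset.card_bij (fun q _ => pos.symm q) ?_ ?_ ?_
    · intro q hq'
      exact Finset.mem_filter.2 ⟨Finset.mem_univ _, (Finset.mem_filter.1 hq').2⟩
    · intro q _ q' _ h
      exact pos.symm.injective h
    · intro y hy
      refine ⟨pos y, Finset.mem_filter.2 ⟨Finset.mem_univ _, ?_⟩, pos.symm_apply_apply y⟩
      rw [pos.symm_apply_apply]
      exact (Finset.mem_filter.1 hy).2
  let lf : R → PT t → Fin 5 := fun x q =>
    code (tH t (pos x)) (tH t q) (tT t (pos x) q) (tT t q (pos x)) (st SS x (pos.symm q))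
  have hlf : ∀ x, ∃ X : Finset (PT t), X.card ≤ m ∧ ∀ q, q ∉ X → lf x q ∈ tal t (pos x) q := by
    intro x
    refine ⟨Finset.univ.filter fun q : PT t => ¬ GoodS c G Bl SS x (pos.symm q), hX x, fun q hqX => ?_⟩
    have hg : GoodS c G Bl SS x (pos.symm q) := by
      by_contra h
      exact hqX (Finset.mem_filter.2 ⟨Finset.mem_univ _, h⟩)
    refine Finset.mem_image_of_mem _ (good_raw hSS hG hB hg _ _ _ _ ?_ ?_ ?_ ?_)
    · show decide (G (pos x).1.1 q.1.1) = true ↔ _
      rw [decide_eq_true_iff, hq q, hp x]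
    · show decide (G q.1.1 (pos x).1.1) = true ↔ _
      rw [decide_eq_true_iff, hq q, hp x]
    · show decide (Bl (pos x).1.1 q.1.1) = true ↔ _
      rw [decide_eq_true_iff, hq q, hp x]
    · show decide (Bl q.1.1 (pos x).1.1) = true ↔ _
      rw [decide_eq_true_iff, hq q, hp x]
  let lab : R → LamT t m := fun x => ⟨pos x, lf x, hlf x⟩
  have hlab : ∀ x y, (lab x).2.1 (pos y) =
      code (tH t (pos x)) (tH t (pos y)) (tT t (pos x) (pos y)) (tT t (pos y) (pos x)) (st SS x y) := by
    intro x y
    show lf x (pos y) = _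
    show code _ _ _ _ (st SS x (pos.symm (pos y))) = _
    rw [pos.symm_apply_apply]
  refine ⟨t, ⟨?_, ?_⟩, ?_⟩
  · rw [← Fintype.card_congr pos]
    exact hn
  · intro p
    obtain ⟨x, rfl⟩ := pos.surjective p
    have hs : ∑ q, te t (pos x) q = ∑ y, te t (pos x) (pos y) :=
      (Equiv.sum_comp pos (fun q => te t (pos x) q)).symm
    rw [hs]
    by_cases hx : hv (c x)
    · refine le_trans ?_ (hc1 x hx)
      rw [Nat.card_eq_fintype_card, Fintype.card_subtype, Finset.card_filter]
      refine Nat.cast_le.2 (Finset.sum_le_sum fun y _ => ?_)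
      have h1 : te t (pos x) (pos y) = ebits (decide (G (c x) (c y))) (decide (G (c y) (c x)))
          (decide (hv (c x))) (decide (hv (c y))) (decide (two (c x) (r x) (r y)))
          (decide (two (c y) (r y) (r x))) := rfl
      rw [h1, decide_eq_true hx, eb1]
      · by_cases h2 : G (c x) (c y) ∨ G (c y) (c x)
        · by_cases h3 : two (c x) (r x) (r y)
          · rw [if_pos (⟨h2, h3⟩ : _ ∧ _)]
            split_ifs <;> omega
          · have h4 : decide (two (c x) (r x) (r y)) = false := decide_eq_false h3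
            rw [h4, Bool.and_false]
            simp
        · have h4 : decide (G (c x) (c y)) = false := decide_eq_false fun h => h2 (Or.inl h)
          have h5 : decide (G (c y) (c x)) = false := decide_eq_false fun h => h2 (Or.inr h)
          rw [h4, h5]
          simp
      · intro h2
        refine decide_eq_false (hhv (c x) (c y) ?_ hx)
        rw [Bool.or_eq_true, decide_eq_true_iff, decide_eq_true_iff] at h2
        exact h2
    · refine le_trans ?_ (hc2 x hx)
      rw [Nat.card_eq_fintype_card, Fintype.card_subtype, Nat.card_eq_fintype_card,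
        Fintype.card_subtype, Finset.card_filter, Finset.card_filter, ← Nat.cast_add,
        ← Finset.sum_add_distrib]
      refine Nat.cast_le.2 (Finset.sum_le_sum fun y _ => ?_)
      have h1 : te t (pos x) (pos y) = ebits (decide (G (c x) (c y))) (decide (G (c y) (c x)))
          (decide (hv (c x))) (decide (hv (c y))) (decide (two (c x) (r x) (r y)))
          (decide (two (c y) (r y) (r x))) := rfl
      rw [h1, decide_eq_false hx, eb2]
      refine Nat.add_le_add ?_ ?_
      · by_cases h2 : G (c x) (c y) ∨ G (c y) (c x)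
        · rw [if_pos h2]
          split_ifs <;> omega
        · have h4 : decide (G (c x) (c y)) = false := decide_eq_false fun h => h2 (Or.inl h)
          have h5 : decide (G (c y) (c x)) = false := decide_eq_false fun h => h2 (Or.inr h)
          rw [h4, h5]
          simp
      · by_cases h2 : (G (c x) (c y) ∨ G (c y) (c x)) ∧ hv (c y) ∧ ¬ two (c y) (r y) (r x)
        · rw [if_pos h2]
          split_ifs <;> omega
        · rw [if_neg h2]
          refine le_of_eq (if_neg fun h3 => h2 ?_)
          rw [Bool.and_eq_true, Bool.or_eq_true, decide_eq_true_iff, decide_eq_true_iff,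
            Bool.and_eq_true, decide_eq_true_iff, Bool.not_eq_true', decide_eq_false_iff_not] at h3
          exact h3
  · refine (sch3_embeds (schT t m)).choose_spec R SS hSS2 pos pos.bijective lab (fun x => rfl) ?_ ?_ ?_ ?_
    · intro x y h
      show ((lab x).2.1 (pos y) = 1 ∨ (lab x).2.1 (pos y) = 2) ↔ _
      rw [hlab, code_D _ _ _ _ _ h, st_D]
    · intro x y h
      show ((lab x).2.1 (pos y) = 3 ∨ (lab x).2.1 (pos y) = 4) ↔ _
      rw [hlab, code_U _ _ _ _ _ h, st_U]
    · intro x y h
      show (lab x).2.1 (pos y) = 2 ↔ _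
      rw [hlab, code_D2 _ _ _ _ _ h, st_D2 _ hSS]
    · intro x y h
      show (lab x).2.1 (pos y) = 4 ↔ _
      rw [hlab, code_U2 _ _ _ _ _ h, st_U2 _ hSS]

end Pool.Agent.BHalf
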