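import Pool.Agent.Lib_MP_390115_uh.HDef

/-!
# Adding a few exceptional elements
-/

namespace Pool.Agent.BHalf

open Pool.Agent.Lib_MP_390115_co (CoverEmbeds IsCoverUniversal b)

/-- labels: a type and the four sets `D`, `D2`, `U`, `U2` -/
private abbrev ExtLab (P0 : Type) (k : ℕ) : Type :=
  (P0 ⊕ Fin k) × (Finset (Fin k) × Finset (Fin k)) × (Finset (Fin k) × Finset (Fin k))

private def extLegal {P0 : Type} {k : ℕ} (l : ExtLab P0 k) : Prop :=
  (∀ j, l.1 = Sum.inr j → j ∉ l.2.1.1 ∧ j ∉ l.2.2.1) ∧ ∀ j, j ∈ l.2.1.1 → j ∉ l.2.2.1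

private def extDp {P0 : Type} {k : ℕ} (l : ExtLab P0 k) (j : Fin k) : Prop :=
  l.1 = Sum.inr j ∨ j ∈ l.2.1.1

private def extUp {P0 : Type} {k : ℕ} (l : ExtLab P0 k) (j : Fin k) : Prop :=
  l.1 = Sum.inr j ∨ j ∈ l.2.2.1

private def extLast {P0 : Type} [PartialOrder P0] {k : ℕ} (l l' : ExtLab P0 k) : Prop :=
  (∃ j, j ∈ l.2.2.1 ∧ j ∈ l'.2.1.1) ∨
    ∀ s t, l.1 = Sum.inl s → l'.1 = Sum.inl t → s < t

private def extLt {P0 : Type} [PartialOrder P0] {k : ℕ} (l l' : ExtLab P0 k) : Prop :=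
  extLegal l ∧ extLegal l' ∧ (∀ j, extDp l j → j ∈ l'.2.1.1) ∧ (∀ j, j ∈ l.2.1.1 → j ∈ l'.2.1.2) ∧
    (∀ j, extUp l' j → j ∈ l.2.2.1) ∧ (∀ j, j ∈ l'.2.2.1 → j ∈ l.2.2.2) ∧ extLast l l'

private theorem extLt_irrefl {P0 : Type} [PartialOrder P0] {k : ℕ} (l : ExtLab P0 k) :
    ¬ extLt l l := by
  rintro ⟨h1, -, h2, -, -, -, h3⟩
  rcases h4 : l.1 with s | j
  · rcases h3 with ⟨j, h5, h6⟩ | h3
    · exact h1.2 j h6 h5
    · exact lt_irrefl s (h3 s s h4 h4)
  · exact (h1.1 j h4).1 (h2 j (Or.inl h4))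

private theorem extLt_trans {P0 : Type} [PartialOrder P0] {k : ℕ} (x y z : ExtLab P0 k)
    (h : extLt x y) (h' : extLt y z) : extLt x z := by
  obtain ⟨a1, a2, a3, a4, a5, a6, a7⟩ := h
  obtain ⟨b1, b2, b3, b4, b5, b6, b7⟩ := h'
  refine ⟨a1, b2, fun j hj => b3 j (Or.inr (a3 j hj)), fun j hj => b4 j (a3 j (Or.inr hj)),
    fun j hj => a5 j (Or.inr (b5 j hj)), fun j hj => a6 j (b5 j (Or.inr hj)), ?_⟩
  rcases a7 with ⟨j, h1, h2⟩ | a7
  · exact Or.inl ⟨j, h1, b3 j (Or.inr h2)⟩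
  rcases b7 with ⟨j, h1, h2⟩ | b7
  · exact Or.inl ⟨j, a5 j (Or.inr h1), h2⟩
  rcases h4 : y.1 with s | j
  · exact Or.inr fun u t hu ht => (a7 u s hu h4).trans (b7 s t h4 ht)
  · exact Or.inl ⟨j, a5 j (Or.inl h4), b3 j (Or.inl h4)⟩

open Classical in
/-- the label of an element -/
private noncomputable def extLab {P0 : Type} {k : ℕ} {Q : Type} [PartialOrder Q] (E : Finset Q)
    (g : {x : Q // x ∉ E} → P0) (i : {x : Q // x ∈ E} → Fin k) (x : Q) : ExtLab P0 k :=
  (if h : x ∈ E then Sum.inr (i ⟨x, h⟩) else Sum.inl (g ⟨x, h⟩),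
    (Finset.univ.filter fun j => ∃ e : {x : Q // x ∈ E}, i e = j ∧ e.1 < x,
      Finset.univ.filter fun j => ∃ e : {x : Q // x ∈ E}, i e = j ∧ SL e.1 x),
    (Finset.univ.filter fun j => ∃ e : {x : Q // x ∈ E}, i e = j ∧ x < e.1,
      Finset.univ.filter fun j => ∃ e : {x : Q // x ∈ E}, i e = j ∧ SL x e.1))

section lab

variable {P0 : Type} [PartialOrder P0] {k : ℕ} {Q : Type} [PartialOrder Q] (E : Finset Q)
  (g : {x : Q // x ∉ E} → P0) (i : {x : Q // x ∈ E} → Fin k)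

private theorem ext_mem_D (x : Q) (j : Fin k) :
    j ∈ (extLab E g i x).2.1.1 ↔ ∃ e : {x : Q // x ∈ E}, i e = j ∧ e.1 < x := by
  simp [extLab]

private theorem ext_mem_D2 (x : Q) (j : Fin k) :
    j ∈ (extLab E g i x).2.1.2 ↔ ∃ e : {x : Q // x ∈ E}, i e = j ∧ SL e.1 x := by
  simp [extLab]

private theorem ext_mem_U (x : Q) (j : Fin k) :
    j ∈ (extLab E g i x).2.2.1 ↔ ∃ e : {x : Q // x ∈ E}, i e = j ∧ x < e.1 := by
  simp [extLab]

private theorem ext_mem_U2 (x : Q) (j : Fin k) :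
    j ∈ (extLab E g i x).2.2.2 ↔ ∃ e : {x : Q // x ∈ E}, i e = j ∧ SL x e.1 := by
  simp [extLab]

private theorem ext_ty_mem (x : Q) (h : x ∈ E) : (extLab E g i x).1 = Sum.inr (i ⟨x, h⟩) := by
  simp [extLab, h]

private theorem ext_ty_not (x : Q) (h : x ∉ E) : (extLab E g i x).1 = Sum.inl (g ⟨x, h⟩) := by
  simp [extLab, h]

private theorem ext_own (x : Q) (j : Fin k) (h : (extLab E g i x).1 = Sum.inr j) :
    ∃ e : {x : Q // x ∈ E}, i e = j ∧ e.1 = x := by
  by_cases hx : x ∈ E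
  · rw [ext_ty_mem E g i x hx] at h
    exact ⟨⟨x, hx⟩, Sum.inr.inj h, rfl⟩
  · rw [ext_ty_not E g i x hx] at h
    cases h

private theorem ext_legal (hi : Function.Injective i) (x : Q) : extLegal (extLab E g i x) := by
  refine ⟨fun j hj => ?_, fun j hj hj' => ?_⟩
  · obtain ⟨e, he, hex⟩ := ext_own E g i x j hj
    rw [ext_mem_D, ext_mem_U]
    constructor
    · rintro ⟨e', he', h1⟩
      have h2 : e' = e := hi (he'.trans he.symm)
      rw [h2, hex] at h1
      exact lt_irrefl _ h1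
    · rintro ⟨e', he', h1⟩
      have h2 : e' = e := hi (he'.trans he.symm)
      rw [h2, hex] at h1
      exact lt_irrefl _ h1
  · rw [ext_mem_D] at hj
    rw [ext_mem_U] at hj'
    obtain ⟨e, he, h1⟩ := hj
    obtain ⟨e', he', h2⟩ := hj'
    have h3 : e' = e := hi (he'.trans he.symm)
    rw [h3] at h2
    exact lt_irrefl _ (h1.trans h2)

/-- a position which is above `x` and below `y` -/
private theorem ext_via (hi : Function.Injective i) (x y : Q) (j : Fin k)
    (h1 : j ∈ (extLab E g i x).2.2.1) (h2 : j ∈ (extLab E g i y).2.1.1) : SL x y := by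
  rw [ext_mem_U] at h1
  rw [ext_mem_D] at h2
  obtain ⟨e, he, h3⟩ := h1
  obtain ⟨e', he', h4⟩ := h2
  have h5 : e' = e := hi (he'.trans he.symm)
  rw [h5] at h4
  exact ⟨e.1, h3, h4⟩

private theorem SL.lt' {x y : Q} (h : SL x y) : x < y := by
  obtain ⟨w, h1, h2⟩ := h
  exact h1.trans h2

private theorem ext_lt (hi : Function.Injective i) (hg : ∀ x y, g x < g y ↔ x < y) (x y : Q) :
    extLt (extLab E g i x) (extLab E g i y) ↔ x < y := by
  constructor
  · rintro ⟨-, -, a3, -, a5, -, a7⟩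
    by_cases hx : x ∈ E
    · have h1 := a3 _ (Or.inl (ext_ty_mem E g i x hx))
      rw [ext_mem_D] at h1
      obtain ⟨e, he, h2⟩ := h1
      have h3 : e = ⟨x, hx⟩ := hi he
      rw [h3] at h2
      exact h2
    by_cases hy : y ∈ E
    · have h1 := a5 _ (Or.inl (ext_ty_mem E g i y hy))
      rw [ext_mem_U] at h1
      obtain ⟨e, he, h2⟩ := h1
      have h3 : e = ⟨y, hy⟩ := hi he
      rw [h3] at h2
      exact h2
    rcases a7 with ⟨j, h1, h2⟩ | a7
    · exact (ext_via E g i hi x y j h1 h2).lt'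
    · have h1 := a7 _ _ (ext_ty_not E g i x hx) (ext_ty_not E g i y hy)
      exact (hg _ _).1 h1
  · intro hxy
    refine ⟨ext_legal E g i hi x, ext_legal E g i hi y, ?_, ?_, ?_, ?_, ?_⟩
    · rintro j (hj | hj)
      · obtain ⟨e, he, hex⟩ := ext_own E g i x j hj
        rw [ext_mem_D]
        exact ⟨e, he, hex ▸ hxy⟩
      · rw [ext_mem_D] at hj ⊢
        obtain ⟨e, he, h1⟩ := hj
        exact ⟨e, he, h1.trans hxy⟩
    · intro j hj
      rw [ext_mem_D] at hj
      rw [ext_mem_D2]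
      obtain ⟨e, he, h1⟩ := hj
      exact ⟨e, he, x, h1, hxy⟩
    · rintro j (hj | hj)
      · obtain ⟨e, he, hex⟩ := ext_own E g i y j hj
        rw [ext_mem_U]
        exact ⟨e, he, hex ▸ hxy⟩
      · rw [ext_mem_U] at hj ⊢
        obtain ⟨e, he, h1⟩ := hj
        exact ⟨e, he, hxy.trans h1⟩
    · intro j hj
      rw [ext_mem_U] at hj
      rw [ext_mem_U2]
      obtain ⟨e, he, h1⟩ := hj
      exact ⟨e, he, y, hxy, h1⟩
    · refine Or.inr fun s t hs ht => ?_
      by_cases hx : x ∈ E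
      · rw [ext_ty_mem E g i x hx] at hs
        cases hs
      by_cases hy : y ∈ E
      · rw [ext_ty_mem E g i y hy] at ht
        cases ht
      rw [ext_ty_not E g i x hx] at hs
      rw [ext_ty_not E g i y hy] at ht
      rw [← Sum.inl.inj hs, ← Sum.inl.inj ht]
      exact (hg _ _).2 hxy

private theorem ext_cov (hi : Function.Injective i)
    (hc : ∀ x y : {x : Q // x ∉ E}, x < y → ¬ SL x.1 y.1 → ∀ c, g x < c → c < g y → False)
    (x y : Q) (hxy : x ⋖ y)
    (c : ExtLab P0 k) (h1 : extLt (extLab E g i x) c) (h2 : extLt c (extLab E g i y)) : False := by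
  obtain ⟨-, -, a3, a4, a5, a6, a7⟩ := h1
  obtain ⟨-, -, b3, b4, b5, b6, b7⟩ := h2
  have hno : ∀ u v : Q, u = x → v = y → ¬ SL u v := by
    rintro u v rfl rfl ⟨w, hw1, hw2⟩
    exact hxy.2 hw1 hw2
  rcases h3 : c.1 with t | j
  · by_cases hx : x ∈ E
    · have h4 := b4 _ (a3 _ (Or.inl (ext_ty_mem E g i x hx)))
      rw [ext_mem_D2] at h4
      obtain ⟨e, he, h5⟩ := h4
      exact hno _ _ (congrArg Subtype.val (hi he)) rfl h5
    by_cases hy : y ∈ E
    · have h4 := a6 _ (b5 _ (Or.inl (ext_ty_mem E g i y hy)))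
      rw [ext_mem_U2] at h4
      obtain ⟨e, he, h5⟩ := h4
      exact hno _ _ rfl (congrArg Subtype.val (hi he)) h5
    rcases a7 with ⟨j, h4, h5⟩ | a7
    · exact hno _ _ rfl rfl (ext_via E g i hi x y j h4 (b3 j (Or.inr h5)))
    rcases b7 with ⟨j, h4, h5⟩ | b7
    · exact hno _ _ rfl rfl (ext_via E g i hi x y j (a5 j (Or.inr h4)) h5)
    exact hc ⟨x, hx⟩ ⟨y, hy⟩ hxy.lt (hno _ _ rfl rfl) t
      (a7 _ _ (ext_ty_not E g i x hx) h3) (b7 _ _ h3 (ext_ty_not E g i y hy))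
  · exact hno _ _ rfl rfl (ext_via E g i hi x y j (a5 j (Or.inl h3)) (b3 j (Or.inl h3)))

private theorem ext_inj (hi : Function.Injective i) (hg : Function.Injective g) :
    Function.Injective (extLab E g i) := by
  intro x y hxy
  have h1 := congrArg Prod.fst hxy
  by_cases hx : x ∈ E
  · by_cases hy : y ∈ E
    · rw [ext_ty_mem E g i x hx, ext_ty_mem E g i y hy] at h1
      exact congrArg Subtype.val (hi (Sum.inr.inj h1))
    · rw [ext_ty_mem E g i x hx, ext_ty_not E g i y hy] at h1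
      cases h1
  · by_cases hy : y ∈ E
    · rw [ext_ty_not E g i x hx, ext_ty_mem E g i y hy] at h1
      cases h1
    · rw [ext_ty_not E g i x hx, ext_ty_not E g i y hy] at h1
      exact congrArg Subtype.val (hg (Sum.inl.inj h1))

end lab

/-- Adding a few exceptional elements (file Ext.lean). -/
theorem ext_embeds (P0 : Type) [PartialOrder P0] [Fintype P0] (k : ℕ) :
    ∃ (P1 : Type) (_ : PartialOrder P1) (_ : Fintype P1),
      Fintype.card P1 ≤ (Fintype.card P0 + k) * 16 ^ k ∧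
      ∀ (Q : Type) [PartialOrder Q] [Fintype Q] (E : Finset Q), E.card ≤ k →
        CovEmb {x : Q // x ∉ E} P0 (fun x y => SL x.1 y.1) → CoverEmbeds Q P1 := by
  refine ⟨ExtLab P0 k, Pool.Agent.BUp.ofLt extLt extLt_irrefl extLt_trans, inferInstance, ?_, ?_⟩
  · rw [Fintype.card_prod, Fintype.card_prod, Fintype.card_prod, Fintype.card_sum, Fintype.card_finset,
      Fintype.card_fin]
    have h1 : 2 ^ k * 2 ^ k * (2 ^ k * 2 ^ k) = 16 ^ k := by
      rw [← mul_pow, ← mul_pow]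
      norm_num
    rw [h1]
  · intro Q _ _ E hE hemb
    obtain ⟨f, hf⟩ := hemb
    obtain ⟨i⟩ : Nonempty ({x : Q // x ∈ E} ↪ Fin k) := by
      refine Function.Embedding.nonempty_of_card_le ?_
      rw [Fintype.card_coe, Fintype.card_fin]
      exact hE
    letI : PartialOrder (ExtLab P0 k) := Pool.Agent.BUp.ofLt extLt extLt_irrefl extLt_trans
    exact Pool.Agent.BUp.coverEmbeds_of (extLab E f i) (ext_inj E f i i.injective f.injective)
      (ext_lt E f i i.injective fun x y => f.lt_iff_lt)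
      (ext_cov E f i i.injective fun x y hxy hs c h1 h2 => (hf x y hxy hs).2 h1 h2)

end Pool.Agent.BHalf
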