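import Mathlib

/-!
# Few small sets
-/

namespace Pool.Agent.BHalf

private theorem small_sum (y : ℝ) (hy0 : 0 < y) (hy1 : y ≤ 1) (m k : ℕ) :
    y ^ m * ((∑ j ∈ Finset.range (m + 1), k.choose j : ℕ) : ℝ) ≤ (y + 1) ^ k := by
  rw [add_pow]
  push_cast
  rw [Finset.mul_sum]
  have h1 : ∑ j ∈ Finset.range (m + 1), y ^ m * (k.choose j : ℝ) ≤
      ∑ j ∈ Finset.range (m + 1), y ^ j * 1 ^ (k - j) * (k.choose j : ℝ) := by
    refine Finset.sum_le_sum fun j hj => ?_
    have hjm : j ≤ m := Nat.lt_succ_iff.1 (Finset.mem_range.1 hj)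
    rw [one_pow, mul_one]
    exact mul_le_mul_of_nonneg_right (pow_le_pow_of_le_one hy0.le hy1 hjm) (Nat.cast_nonneg _)
  have h2 : ∑ j ∈ Finset.range (m + 1), y ^ j * 1 ^ (k - j) * (k.choose j : ℝ) ≤
      ∑ j ∈ Finset.range (k + 1) ∪ Finset.range (m + 1),
        y ^ j * 1 ^ (k - j) * (k.choose j : ℝ) :=
    Finset.sum_le_sum_of_subset_of_nonneg Finset.subset_union_right
      fun j _ _ => by positivity
  have h3 : ∑ j ∈ Finset.range (k + 1), y ^ j * 1 ^ (k - j) * (k.choose j : ℝ) =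
      ∑ j ∈ Finset.range (k + 1) ∪ Finset.range (m + 1),
        y ^ j * 1 ^ (k - j) * (k.choose j : ℝ) := by
    refine Finset.sum_subset Finset.subset_union_left fun j _ hj => ?_
    have hkj : k < j := by
      by_contra h
      exact hj (Finset.mem_range.2 (by omega))
    rw [Nat.choose_eq_zero_of_lt hkj]
    simp
  exact (h1.trans h2).trans (le_of_eq h3.symm)

/-- Few small sets. -/
theorem small_sets (ε : ℝ) (hε : 0 < ε) : ∃ θ : ℝ, 0 < θ ∧ θ ≤ 1 ∧ ∀ n m k : ℕ, k ≤ n →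
    (m : ℝ) ≤ θ * n →
    ((∑ j ∈ Finset.range (m + 1), k.choose j : ℕ) : ℝ) ≤ (2 : ℝ) ^ (ε * n) := by
  have hl2 : 0 < Real.log 2 := Real.log_pos one_lt_two
  obtain ⟨c, hc⟩ : ∃ c : ℝ, c = ε * Real.log 2 / 2 := ⟨_, rfl⟩
  have hc0 : 0 < c := by rw [hc]; positivity
  obtain ⟨y, hy⟩ : ∃ y : ℝ, y = min 1 c := ⟨_, rfl⟩
  have hy0 : 0 < y := by rw [hy]; exact lt_min one_pos hc0
  have hy1 : y ≤ 1 := by rw [hy]; exact min_le_left _ _
  have hyc : y ≤ c := by rw [hy]; exact min_le_right _ _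
  obtain ⟨L, hLd⟩ : ∃ L : ℝ, L = -Real.log y := ⟨_, rfl⟩
  have hL : 0 ≤ L := by
    rw [hLd]
    have := Real.log_nonpos hy0.le hy1
    linarith
  refine ⟨min 1 (c / (L + 1)), lt_min one_pos (by positivity), min_le_left _ _, ?_⟩
  intro n m k hk hm
  have hn : (0 : ℝ) ≤ n := Nat.cast_nonneg n
  have hkn : (k : ℝ) ≤ n := by exact_mod_cast hk
  have h1 := small_sum y hy0 hy1 m k
  -- the factor `y ^ m`
  have h2 : Real.exp (-(c * n)) ≤ y ^ m := by
    have h3 : y ^ m = Real.exp (-(L * m)) := by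
      rw [hLd, neg_mul, neg_neg, mul_comm, ← Real.log_pow, Real.exp_log (pow_pos hy0 m)]
    rw [h3]
    apply Real.exp_le_exp.2
    have h4 : (m : ℝ) * (L + 1) ≤ c * n := by
      have h5 : (m : ℝ) ≤ c / (L + 1) * n :=
        hm.trans (mul_le_mul_of_nonneg_right (min_le_right _ _) hn)
      have hL1 : 0 < L + 1 := by linarith
      calc (m : ℝ) * (L + 1) ≤ c / (L + 1) * n * (L + 1) :=
            mul_le_mul_of_nonneg_right h5 hL1.le
        _ = c * n := by field_simp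
    have h6 : (0 : ℝ) ≤ m := Nat.cast_nonneg m
    nlinarith
  have h7 : (y + 1) ^ k ≤ Real.exp (c * n) := by
    calc (y + 1) ^ k ≤ (Real.exp y) ^ k :=
          pow_le_pow_left₀ (by linarith) (Real.add_one_le_exp y) k
      _ = Real.exp (k * y) := (Real.exp_nat_mul y k).symm
      _ ≤ Real.exp (c * n) := by
          apply Real.exp_le_exp.2
          calc (k : ℝ) * y ≤ n * c := mul_le_mul hkn hyc hy0.le hn
            _ = c * n := mul_comm _ _
  have hS : (0 : ℝ) ≤ ((∑ j ∈ Finset.range (m + 1), k.choose j : ℕ) : ℝ) := Nat.cast_nonneg _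
  have h8 : Real.exp (-(c * n)) * ((∑ j ∈ Finset.range (m + 1), k.choose j : ℕ) : ℝ) ≤
      Real.exp (c * n) :=
    ((mul_le_mul_of_nonneg_right h2 hS).trans h1).trans h7
  have h9 : ((∑ j ∈ Finset.range (m + 1), k.choose j : ℕ) : ℝ) ≤
      Real.exp (c * n) * Real.exp (c * n) := by
    have h10 := mul_le_mul_of_nonneg_left h8 (Real.exp_pos (c * n)).le
    rwa [← mul_assoc, ← Real.exp_add, add_neg_cancel, Real.exp_zero, one_mul] at h10
  refine h9.trans (le_of_eq ?_)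
  rw [← Real.exp_add, Real.rpow_def_of_pos (by norm_num : (0 : ℝ) < 2)]
  congr 1
  rw [hc]
  ring

end Pool.Agent.BHalf
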