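import Mathlib

/-!
# Definitions for the structure theorem (pieces of the regularity partition)
-/

namespace Pool.Agent.BHalf

open Finset

/-- the piece of a part and a block -/
def pcs {Q : Type} {B : ℕ} (bl : Q → Fin B) (p : Finset Q × Fin B) : Finset Q :=
  p.1.filter (fun x => bl x = p.2)

/-- the colour of an element: its part and its block -/
noncomputable def col {Q : Type} [Fintype Q] [DecidableEq Q] {B : ℕ}
    (P : Finpartition (univ : Finset Q)) (bl : Q → Fin B) (x : Q) : Finset Q × Fin B :=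
  (P.part x, bl x)

/-- usable pairs of pieces -/
def G0 {Q : Type} [Fintype Q] [DecidableEq Q] (Gr : SimpleGraph Q) [DecidableRel Gr.Adj] (ε κ δ : ℝ)
    {B : ℕ} (P : Finpartition (univ : Finset Q)) (bl : Q → Fin B) (p q : Finset Q × Fin B) : Prop :=
  p.1 ∈ P.parts ∧ q.1 ∈ P.parts ∧ p.2 < q.2 ∧ p.1 ≠ q.1 ∧ Gr.IsUniform ε p.1 q.1 ∧
    δ ≤ (Gr.edgeDensity p.1 q.1 : ℝ) ∧ κ * (p.1.card : ℝ) ≤ ((pcs bl p).card : ℝ) ∧
    κ * (q.1.card : ℝ) ≤ ((pcs bl q).card : ℝ)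

/-- black pairs of pieces -/
def B0 {Q : Type} [Fintype Q] [DecidableEq Q] (Gr : SimpleGraph Q) [DecidableRel Gr.Adj] (ε κ δ : ℝ)
    {B : ℕ} (P : Finpartition (univ : Finset Q)) (bl : Q → Fin B) (p q : Finset Q × Fin B) : Prop :=
  ∃ r, G0 Gr ε κ δ P bl p r ∧ G0 Gr ε κ δ P bl r q

/-- gray pairs of pieces -/
def GG {Q : Type} [Fintype Q] [DecidableEq Q] (Gr : SimpleGraph Q) [DecidableRel Gr.Adj] (ε κ δ : ℝ)
    {B : ℕ} (P : Finpartition (univ : Finset Q)) (bl : Q → Fin B) (p q : Finset Q × Fin B) : Prop :=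
  G0 Gr ε κ δ P bl p q ∧ ¬ B0 Gr ε κ δ P bl p q

end Pool.Agent.BHalf
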