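import Pool.Agent.Lib_MP_390115_uh.HDef
import Pool.Agent.Lib_MP_390115_uh.SDef
import Pool.Agent.Lib_MP_390115_uh.Blk

/-!
# The structure theorem from the count of the bad pairs
-/

set_option autoImplicit false

namespace Pool.Agent.BHalf

open Finset

/-! ### Relations that increase a rank -/

section Abs

variable {C ι : Type} [LinearOrder ι] (b : C → ι) (g0 : C → C → Prop)

private theorem sf_anti (h0 : ∀ p q, g0 p q → b p < b q) {p q : C}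
    (h : g0 p q ∧ ¬ ∃ r, g0 p r ∧ g0 r q) :
    ¬ (g0 q p ∧ ¬ ∃ r, g0 q r ∧ g0 r p) ∧ (¬ ∃ r, g0 p r ∧ g0 r q) ∧ ¬ ∃ r, g0 q r ∧ g0 r p := by
  refine ⟨?_, h.2, ?_⟩
  · rintro ⟨h1, -⟩
    exact lt_asymm (h0 _ _ h.1) (h0 _ _ h1)
  · rintro ⟨r, h1, h2⟩
    exact lt_asymm (h0 _ _ h.1) ((h0 _ _ h1).trans (h0 _ _ h2))

private theorem sf_antiB (h0 : ∀ p q, g0 p q → b p < b q) {p q : C}
    (h : ∃ r, g0 p r ∧ g0 r q) : ¬ ∃ r, g0 q r ∧ g0 r p := by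
  obtain ⟨r, h1, h2⟩ := h
  rintro ⟨s, h3, h4⟩
  exact lt_asymm ((h0 _ _ h1).trans (h0 _ _ h2)) ((h0 _ _ h3).trans (h0 _ _ h4))

private theorem sf_tri (h0 : ∀ p q, g0 p q → b p < b q) {p q r : C}
    (h1 : (g0 p q ∧ ¬ ∃ s, g0 p s ∧ g0 s q) ∨ (g0 q p ∧ ¬ ∃ s, g0 q s ∧ g0 s p))
    (h2 : (g0 q r ∧ ¬ ∃ s, g0 q s ∧ g0 s r) ∨ (g0 r q ∧ ¬ ∃ s, g0 r s ∧ g0 s q)) :
    ¬ ((g0 p r ∧ ¬ ∃ s, g0 p s ∧ g0 s r) ∨ (g0 r p ∧ ¬ ∃ s, g0 r s ∧ g0 s p)) := by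
  rintro (⟨h3, n3⟩ | ⟨h3, n3⟩)
  · rcases h1 with ⟨h1, n1⟩ | ⟨h1, n1⟩ <;> rcases h2 with ⟨h2, n2⟩ | ⟨h2, n2⟩
    · exact n3 ⟨q, h1, h2⟩
    · exact n1 ⟨r, h3, h2⟩
    · exact n2 ⟨p, h1, h3⟩
    · exact absurd ((h0 _ _ h3).trans ((h0 _ _ h2).trans (h0 _ _ h1))) (lt_irrefl _)
  · rcases h1 with ⟨h1, n1⟩ | ⟨h1, n1⟩ <;> rcases h2 with ⟨h2, n2⟩ | ⟨h2, n2⟩
    · exact absurd ((h0 _ _ h3).trans ((h0 _ _ h1).trans (h0 _ _ h2))) (lt_irrefl _)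
    · exact n2 ⟨p, h3, h1⟩
    · exact n1 ⟨r, h2, h3⟩
    · exact n3 ⟨q, h2, h1⟩

end Abs

/-! ### Transfer of relations along an injection -/

private def sfR {C D : Type} (e : C → D) (R : C → C → Prop) (i j : D) : Prop :=
  ∃ p q, e p = i ∧ e q = j ∧ R p q

private theorem sfR_iff {C D : Type} {e : C → D} (he : Function.Injective e) (R : C → C → Prop)
    (p q : C) : sfR e R (e p) (e q) ↔ R p q := by
  constructor
  · rintro ⟨p', q', h1, h2, h3⟩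
    rw [← he h1, ← he h2]
    exact h3
  · intro h
    exact ⟨p, q, rfl, rfl, h⟩

private theorem sfR_dom {C D : Type} {e : C → D} {R : C → C → Prop} {i j : D} (h : sfR e R i j) :
    (∃ p, e p = i) ∧ ∃ q, e q = j := by
  obtain ⟨p, q, h1, h2, -⟩ := h
  exact ⟨⟨p, h1⟩, ⟨q, h2⟩⟩

/-- The constants. -/
private theorem sf_const (η : ℝ) (hη : 0 < η) : ∃ (B : ℕ) (κ δ ε : ℝ), 0 < B ∧ 0 < ε ∧ ε ≤ κ ∧
    ε + ε / κ ≤ δ ∧ 4 / (B : ℝ) ≤ η / 8 ∧ 2 * κ * B ≤ η / 8 ∧ ε / 2 + 4 * ε + 4 * δ ≤ 2 * (η / 8) ∧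
    4 * ε * (B : ℝ) ^ 2 ≤ η / 8 := by
  obtain ⟨B, hB⟩ : ∃ B : ℕ, B = ⌈32 / η⌉₊ + 1 := ⟨_, rfl⟩
  have hB0 : 0 < B := by omega
  have hBr : (0 : ℝ) < B := by exact_mod_cast hB0
  have hB1 : 32 / η ≤ (B : ℝ) := by
    rw [hB]
    push_cast
    have := Nat.le_ceil (32 / η)
    linarith
  obtain ⟨κ, hκ⟩ : ∃ κ : ℝ, κ = η / (16 * B) := ⟨_, rfl⟩
  have hκ0 : 0 < κ := by rw [hκ]; positivity
  obtain ⟨δ, hδ⟩ : ∃ δ : ℝ, δ = η / 32 := ⟨_, rfl⟩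
  have hδ0 : 0 < δ := by rw [hδ]; positivity
  obtain ⟨ε, hε⟩ : ∃ ε : ℝ, ε = min (min κ (δ * κ / (κ + 1))) (min (η / 36) (η / (32 * (B : ℝ) ^ 2))) :=
    ⟨_, rfl⟩
  have hε0 : 0 < ε := by
    rw [hε]
    refine lt_min (lt_min hκ0 (by positivity)) (lt_min (by positivity) (by positivity))
  have h1 : ε ≤ κ := by rw [hε]; exact (min_le_left _ _).trans (min_le_left _ _)
  have h2 : ε ≤ δ * κ / (κ + 1) := by rw [hε]; exact (min_le_left _ _).trans (min_le_right _ _)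
  have h3 : ε ≤ η / 36 := by rw [hε]; exact (min_le_right _ _).trans (min_le_left _ _)
  have h4 : ε ≤ η / (32 * (B : ℝ) ^ 2) := by
    rw [hε]; exact (min_le_right _ _).trans (min_le_right _ _)
  refine ⟨B, κ, δ, ε, hB0, hε0, h1, ?_, ?_, ?_, ?_, ?_⟩
  · have h5 : ε * (κ + 1) ≤ δ * κ := by
      rwa [le_div_iff₀ (by positivity)] at h2
    have h6 : ε + ε / κ = ε * (κ + 1) / κ := by field_simp
    rw [h6, div_le_iff₀ hκ0]
    exact h5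
  · rw [div_le_iff₀ hη] at hB1
    rw [div_le_iff₀ hBr]
    linarith
  · have h5 : 2 * κ * B = η / 8 := by
      rw [hκ]
      field_simp
      norm_num
    exact h5.le
  · rw [hδ]
    linarith
  · rw [le_div_iff₀ (by positivity)] at h4
    linarith

/-- The structure theorem, from the count of the bad pairs. -/
theorem structure_of
    (HBC : ∀ (Q : Type) [PartialOrder Q] [Fintype Q] [DecidableEq Q] (Gr : SimpleGraph Q)
      [DecidableRel Gr.Adj], (∀ x y, Gr.Adj x y ↔ x < y ∨ y < x) → ∀ (ε κ δ : ℝ), 0 < ε → ε ≤ κ →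
      ε + ε / κ ≤ δ → ∀ (B : ℕ), 0 < B →
      ∀ (P : Finpartition (Finset.univ : Finset Q)), P.IsEquipartition →
      4 / ε ≤ (P.parts.card : ℝ) → P.IsUniform Gr ε →
      ∀ (bl : Q → Fin B), (∀ x y, x < y → bl x ≤ bl y) →
      (∀ k, Nat.card {x : Q // bl x = k} ≤ Fintype.card Q / B + 1) →
      (Nat.card {z : Q × Q // ¬ ((GG Gr ε κ δ P bl (col P bl z.1) (col P bl z.2) ∧ ¬ z.2 ≤ z.1) ∨
        (GG Gr ε κ δ P bl (col P bl z.2) (col P bl z.1) ∧ ¬ z.1 ≤ z.2) ∨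
        (B0 Gr ε κ δ P bl (col P bl z.1) (col P bl z.2) ∧ SL z.1 z.2) ∨
        (B0 Gr ε κ δ P bl (col P bl z.2) (col P bl z.1) ∧ SL z.2 z.1) ∨
        (¬ GG Gr ε κ δ P bl (col P bl z.1) (col P bl z.2) ∧
          ¬ GG Gr ε κ δ P bl (col P bl z.2) (col P bl z.1) ∧
          ¬ B0 Gr ε κ δ P bl (col P bl z.1) (col P bl z.2) ∧
          ¬ B0 Gr ε κ δ P bl (col P bl z.2) (col P bl z.1) ∧ ¬ z.1 ≤ z.2 ∧ ¬ z.2 ≤ z.1))} : ℝ) ≤
        B * ((Fintype.card Q : ℝ) / B + 1) ^ 2 + 2 * κ * B * (Fintype.card Q : ℝ) ^ 2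
          + (ε / 2 + 4 * ε + 4 * δ) * (Fintype.card Q : ℝ) ^ 2
          + 4 * ε * B ^ 2 * (Fintype.card Q : ℝ) ^ 2)
    (η : ℝ) (hη : 0 < η) : ∃ K n0 : ℕ, ∀ (Q : Type) [PartialOrder Q] [Fintype Q],
    n0 ≤ Fintype.card Q → ∃ (c : Q → Fin K) (G Bl : Fin K → Fin K → Prop),
      (∀ i j, G i j → ¬ G j i ∧ ¬ Bl i j ∧ ¬ Bl j i) ∧ (∀ i j, Bl i j → ¬ Bl j i) ∧
      (∀ i j k, (G i j ∨ G j i) → (G j k ∨ G k j) → ¬ (G i k ∨ G k i)) ∧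
      (Nat.card {z : Q × Q // ¬ Good c G Bl z.1 z.2} : ℝ) ≤ η * (Fintype.card Q : ℝ) ^ 2 := by
  obtain ⟨B, κ, δ, ε, hB, hε, hεκ, hδ, c1, c2, c3, c4⟩ := sf_const η hη
  obtain ⟨l, hl⟩ : ∃ l : ℕ, l = ⌈4 / ε⌉₊ := ⟨_, rfl⟩
  have hl4 : 4 / ε ≤ (l : ℝ) := by rw [hl]; exact Nat.le_ceil _
  refine ⟨SzemerediRegularity.bound ε l * B, max l B, fun Q _ _ hn => ?_⟩
  classical
  let Gr : SimpleGraph Q :=
    { Adj := fun x y => x < y ∨ y < x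
      symm := ⟨fun _ _ h => h.symm⟩
      loopless := ⟨fun x h => by rcases h with h | h <;> exact lt_irrefl _ h⟩ }
  obtain ⟨P, hP, hlP, hPb, hPu⟩ := szemeredi_regularity Gr hε ((le_max_left l B).trans hn)
  obtain ⟨bl, hbl, hbc⟩ := exists_bl Q B hB
  have hcard : Fintype.card ({s // s ∈ P.parts} × Fin B) ≤
      Fintype.card (Fin (SzemerediRegularity.bound ε l * B)) := by
    rw [Fintype.card_prod, Fintype.card_fin, Fintype.card_fin, Fintype.card_coe]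
    exact Nat.mul_le_mul_right _ hPb
  obtain ⟨e⟩ := Function.Embedding.nonempty_of_card_le hcard
  have he := e.injective
  -- the relations on the pieces
  let C : Type := {s // s ∈ P.parts} × Fin B
  let pr : C → Finset Q × Fin B := fun p => (p.1.1, p.2)
  let g0 : C → C → Prop := fun p q => G0 Gr ε κ δ P bl (pr p) (pr q)
  have h0 : ∀ p q, g0 p q → p.2 < q.2 := fun p q h => h.2.2.1
  have hB0 : ∀ p q, B0 Gr ε κ δ P bl (pr p) (pr q) ↔ ∃ r, g0 p r ∧ g0 r q := by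
    intro p q
    constructor
    · rintro ⟨r, h1, h2⟩
      exact ⟨(⟨r.1, h1.2.1⟩, r.2), h1, h2⟩
    · rintro ⟨r, h1, h2⟩
      exact ⟨pr r, h1, h2⟩
  have hGG : ∀ p q, GG Gr ε κ δ P bl (pr p) (pr q) ↔ (g0 p q ∧ ¬ ∃ r, g0 p r ∧ g0 r q) := by
    intro p q
    unfold GG
    rw [hB0]
  let cc : Q → C := fun x => (⟨P.part x, P.part_mem.2 (mem_univ x)⟩, bl x)
  have hcc : ∀ x, pr (cc x) = col P bl x := fun x => rfl
  obtain ⟨Gf, hGf⟩ : ∃ Gf : C → C → Prop, Gf = fun p q => g0 p q ∧ ¬ ∃ r, g0 p r ∧ g0 r q := ⟨_, rfl⟩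
  obtain ⟨Bf, hBf⟩ : ∃ Bf : C → C → Prop, Bf = fun p q => ∃ r, g0 p r ∧ g0 r q := ⟨_, rfl⟩
  refine ⟨fun x => e (cc x), sfR e Gf, sfR e Bf, ?_, ?_, ?_, ?_⟩
  · intro i j hij
    obtain ⟨⟨p, rfl⟩, ⟨q, rfl⟩⟩ := sfR_dom hij
    rw [sfR_iff he] at hij ⊢
    rw [sfR_iff he, sfR_iff he]
    rw [hGf] at hij ⊢
    rw [hBf]
    exact sf_anti (fun p : C => p.2) g0 h0 hij
  · intro i j hij
    obtain ⟨⟨p, rfl⟩, ⟨q, rfl⟩⟩ := sfR_dom hij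
    rw [sfR_iff he] at hij ⊢
    rw [hBf] at hij ⊢
    exact sf_antiB (fun p : C => p.2) g0 h0 hij
  · intro i j k h1 h2
    have hij : (∃ p, e p = i) ∧ ∃ q, e q = j := by
      rcases h1 with h | h
      · exact sfR_dom h
      · exact (sfR_dom h).symm
    have hjk : (∃ p, e p = j) ∧ ∃ q, e q = k := by
      rcases h2 with h | h
      · exact sfR_dom h
      · exact (sfR_dom h).symm
    obtain ⟨⟨p, rfl⟩, ⟨q, rfl⟩⟩ := hij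
    obtain ⟨-, ⟨r, rfl⟩⟩ := hjk
    rw [sfR_iff he, sfR_iff he] at h1 h2 ⊢
    rw [hGf] at h1 h2 ⊢
    exact sf_tri (fun p : C => p.2) g0 h0 h1 h2
  · have hmain := HBC Q Gr (fun x y => Iff.rfl) ε κ δ hε hεκ hδ B hB P hP
      (hl4.trans (by exact_mod_cast hlP)) hPu bl hbl hbc
    have hcongr : Nat.card {z : Q × Q // ¬ Good (fun x => e (cc x)) (sfR e Gf) (sfR e Bf) z.1 z.2} =
        Nat.card {z : Q × Q // ¬ ((GG Gr ε κ δ P bl (col P bl z.1) (col P bl z.2) ∧ ¬ z.2 ≤ z.1) ∨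
        (GG Gr ε κ δ P bl (col P bl z.2) (col P bl z.1) ∧ ¬ z.1 ≤ z.2) ∨
        (B0 Gr ε κ δ P bl (col P bl z.1) (col P bl z.2) ∧ SL z.1 z.2) ∨
        (B0 Gr ε κ δ P bl (col P bl z.2) (col P bl z.1) ∧ SL z.2 z.1) ∨
        (¬ GG Gr ε κ δ P bl (col P bl z.1) (col P bl z.2) ∧
          ¬ GG Gr ε κ δ P bl (col P bl z.2) (col P bl z.1) ∧
          ¬ B0 Gr ε κ δ P bl (col P bl z.1) (col P bl z.2) ∧
          ¬ B0 Gr ε κ δ P bl (col P bl z.2) (col P bl z.1) ∧ ¬ z.1 ≤ z.2 ∧ ¬ z.2 ≤ z.1))} := by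
      refine Nat.card_congr (Equiv.subtypeEquivRight fun z => not_congr ?_)
      unfold Good
      simp only [sfR_iff he, ← hcc, hB0, hGG, hGf, hBf]
    rw [hcongr]
    refine hmain.trans ?_
    obtain ⟨n, hnn⟩ : ∃ n : ℝ, n = (Fintype.card Q : ℝ) := ⟨_, rfl⟩
    rw [← hnn]
    have hnB : (B : ℝ) ≤ n := by
      rw [hnn]
      exact_mod_cast (le_max_right l B).trans hn
    have hBr : (0 : ℝ) < B := by exact_mod_cast hB
    have hn0 : 0 ≤ n := hBr.le.trans hnB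
    have hn2 : 0 ≤ n ^ 2 := sq_nonneg n
    have t1 : B * (n / B + 1) ^ 2 ≤ η / 8 * n ^ 2 := by
      have h1 : n / B + 1 ≤ 2 * n / B := by
        rw [div_add_one hBr.ne', div_le_div_iff_of_pos_right hBr]
        linarith
      have h2 : 0 ≤ n / B + 1 := by positivity
      calc B * (n / B + 1) ^ 2 ≤ B * (2 * n / B) ^ 2 :=
            mul_le_mul_of_nonneg_left (pow_le_pow_left₀ h2 h1 2) hBr.le
        _ = 4 / B * n ^ 2 := by field_simp; ring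
        _ ≤ η / 8 * n ^ 2 := mul_le_mul_of_nonneg_right c1 hn2
    have t2 : 2 * κ * B * n ^ 2 ≤ η / 8 * n ^ 2 := mul_le_mul_of_nonneg_right c2 hn2
    have t3 : (ε / 2 + 4 * ε + 4 * δ) * n ^ 2 ≤ 2 * (η / 8) * n ^ 2 :=
      mul_le_mul_of_nonneg_right c3 hn2
    have t4 : 4 * ε * B ^ 2 * n ^ 2 ≤ η / 8 * n ^ 2 := mul_le_mul_of_nonneg_right c4 hn2
    have t5 : 0 ≤ η * n ^ 2 := mul_nonneg hη.le hn2
    linarith

end Pool.Agent.BHalf
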