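import Pool.Agent.Lib_MP_390115_uh.SCount
import Pool.Agent.Lib_MP_390115_uh.SFin

/-!
# The structure theorem
-/

set_option autoImplicit false

namespace Pool.Agent.BHalf

/-- The structure theorem (file Struct.lean, from Blk, Black and the regularity lemma of Mathlib). -/
theorem structure_thm (η : ℝ) (hη : 0 < η) : ∃ K n0 : ℕ, ∀ (Q : Type) [PartialOrder Q] [Fintype Q],
    n0 ≤ Fintype.card Q → ∃ (c : Q → Fin K) (G Bl : Fin K → Fin K → Prop),
      (∀ i j, G i j → ¬ G j i ∧ ¬ Bl i j ∧ ¬ Bl j i) ∧ (∀ i j, Bl i j → ¬ Bl j i) ∧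
      (∀ i j k, (G i j ∨ G j i) → (G j k ∨ G k j) → ¬ (G i k ∨ G k i)) ∧
      (Nat.card {z : Q × Q // ¬ Good c G Bl z.1 z.2} : ℝ) ≤ η * (Fintype.card Q : ℝ) ^ 2 := by
  refine structure_of ?_ η hη
  intro Q _ _ _ Gr _ hGr ε κ δ hε hεκ hδ B hB P hP hl hu bl hbl hc
  exact bad_count Gr hGr ε κ δ hε hεκ hδ B hB P hP hl hu bl hbl hc

end Pool.Agent.BHalf
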