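import Pool.Agent.Lib_MP_390115_uh.Emb
import Pool.Agent.Lib_MP_390115_uh.Ext
import Pool.Agent.Lib_MP_390115_uh.Small
import Pool.Agent.Lib_MP_390115_uh.Struct

/-!
# The upper bound from templates
-/

namespace Pool.Agent.BHalf

open Pool.Agent.Lib_MP_390115_co (CoverEmbeds IsCoverUniversal b)
open Pool.Agent.BUp (b_le_sum)

theorem card_LamT {K M n m : ℕ} (t : Tm K M n) {C : ℝ} (hV : Valid t C) {S : ℝ}
    (hS : ((∑ j ∈ Finset.range (m + 1), (Fintype.card (PT t)).choose j : ℕ) : ℝ) ≤ S) :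
    (Nat.card (LamT t m) : ℝ) ≤ n * (S * 5 ^ m * (2 : ℝ) ^ C) := by
  classical
  have h1 : Nat.card (LamT t m) = ∑ p : PT t, Nat.card {f : PT t → Fin 5 //
      ∃ X : Finset (PT t), X.card ≤ m ∧ ∀ q, q ∉ X → f q ∈ tal t p q} := Nat.card_sigma
  have hS0 : (0 : ℝ) ≤ S := le_trans (Nat.cast_nonneg _) hS
  rw [h1, Nat.cast_sum]
  refine (Finset.sum_le_card_nsmul _ _ (S * 5 ^ m * (2 : ℝ) ^ C) fun p _ => ?_).trans ?_
  · have h2 := cnt_fun (tal t p) (te t p) (fun q => card_code _ _ _ _ _ _ _ _) m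
    calc ((Nat.card {f : PT t → Fin 5 //
          ∃ X : Finset (PT t), X.card ≤ m ∧ ∀ q, q ∉ X → f q ∈ tal t p q} : ℕ) : ℝ)
        ≤ (((∑ j ∈ Finset.range (m + 1), (Fintype.card (PT t)).choose j) * 5 ^ m *
          2 ^ ∑ q, te t p q : ℕ) : ℝ) := by exact_mod_cast h2
      _ = ((∑ j ∈ Finset.range (m + 1), (Fintype.card (PT t)).choose j : ℕ) : ℝ) * 5 ^ m *
          (2 : ℝ) ^ (((∑ q, te t p q : ℕ)) : ℝ) := by
        rw [Real.rpow_natCast]
        push_cast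
        ring
      _ ≤ S * 5 ^ m * (2 : ℝ) ^ C := by
        refine mul_le_mul (mul_le_mul_of_nonneg_right hS (by positivity)) ?_ (by positivity)
          (by positivity)
        exact Real.rpow_le_rpow_of_exponent_le (by norm_num) (hV.2 p)
  · rw [nsmul_eq_mul, Finset.card_univ]
    refine mul_le_mul_of_nonneg_right ?_ (by positivity)
    exact_mod_cast hV.1

theorem exists_pad (Q : Type) [PartialOrder Q] [Fintype Q] {n : ℕ} (h : Fintype.card Q ≤ n) :
    ∃ (Q' : Type) (_ : PartialOrder Q') (_ : Fintype Q'), Fintype.card Q' = n ∧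
      CoverEmbeds Q Q' := by
  refine ⟨Q ⊕ Fin (n - Fintype.card Q), inferInstance, inferInstance, ?_, ?_⟩
  · rw [Fintype.card_sum, Fintype.card_fin]
    omega
  · refine ⟨⟨⟨Sum.inl, Sum.inl_injective⟩, ?_⟩, ?_⟩
    · intro x y
      exact Sum.inl_le_inl_iff
    · intro x y hxy
      refine ⟨Sum.inl_lt_inl_iff.2 hxy.lt, ?_⟩
      intro c h1 h2
      rcases c with c | c
      · exact hxy.2 (Sum.inl_lt_inl_iff.1 h1) (Sum.inl_lt_inl_iff.1 h2)
      · exact Sum.not_inl_lt_inr h1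

theorem covEmb_trans {Q Q' P : Type} [PartialOrder Q] [PartialOrder Q'] [PartialOrder P]
    (h1 : CoverEmbeds Q Q') (h2 : CoverEmbeds Q' P) : CoverEmbeds Q P := by
  obtain ⟨f, hf⟩ := h1
  obtain ⟨g, hg⟩ := h2
  exact ⟨f.trans g, fun x y h => hg _ _ (hf _ _ h)⟩

theorem b_le_templates (K n0 M : ℕ) (hM : 0 < M) (θ : ℝ) (hθ : 0 < θ)
    (hS : ∀ (Q : Type) [PartialOrder Q] [Fintype Q], n0 ≤ Fintype.card Q →
      ∃ (c : Q → Fin K) (G Bl : Fin K → Fin K → Prop),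
      (∀ i j, G i j → ¬ G j i ∧ ¬ Bl i j ∧ ¬ Bl j i) ∧ (∀ i j, Bl i j → ¬ Bl j i) ∧
      (∀ i j k, (G i j ∨ G j i) → (G j k ∨ G k j) → ¬ (G i k ∨ G k i)) ∧
      (Nat.card {z : Q × Q // ¬ Good c G Bl z.1 z.2} : ℝ) ≤ θ ^ 2 * (Fintype.card Q : ℝ) ^ 2)
    (n : ℕ) (hn : n0 ≤ n) (m : ℕ) (hm : m = ⌊θ * n⌋₊) (A : ℝ) (hA0 : 0 ≤ A)
    (hA : ∀ t : Tm K M n, Valid t (n / 2 + n / M + K * M) → (Nat.card (LamT t m) : ℝ) ≤ A) :
    (b n : ℝ) ≤ Fintype.card (Tm K M n) * ((A + m) * 16 ^ m) := by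
  classical
  let T : Type := {t : Tm K M n // Valid t ((n : ℝ) / 2 + n / M + K * M)}
  choose P1 o1 f1 hc he using fun t : T =>
    @ext_embeds (LamT t.1 m) (ordT t.1 m) (Fintype.ofFinite _) m
  have h1 : b n ≤ ∑ t : T, @Fintype.card (P1 t) (f1 t) := by
    refine @b_le_sum n T _ P1 o1 f1 ?_
    intro Q0 _ _ hQ0
    obtain ⟨Q, oQ, fQ, hQ, hemb⟩ := exists_pad Q0 hQ0
    obtain ⟨c, G, Bl, g1, g2, g3, g4⟩ := hS Q (by omega)
    let bad : Q → ℕ := fun x => Nat.card {y : Q // ¬ Good c G Bl x y}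
    let E : Finset Q := Finset.univ.filter fun x => m < bad x
    have hsum : ∑ x, bad x = Nat.card {z : Q × Q // ¬ Good c G Bl z.1 z.2} := by
      rw [Nat.card_congr (Equiv.subtypeProdEquivSigmaSubtype fun x y => ¬ Good c G Bl x y),
        Nat.card_sigma]
    have hE1 : E.card * (m + 1) ≤ ∑ x, bad x := by
      calc E.card * (m + 1) = ∑ _x ∈ E, (m + 1) := by rw [Finset.sum_const, smul_eq_mul]
        _ ≤ ∑ x ∈ E, bad x := Finset.sum_le_sum fun x hx => (Finset.mem_filter.1 hx).2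
        _ ≤ ∑ x, bad x := Finset.sum_le_sum_of_subset (Finset.subset_univ _)
    have hE : E.card ≤ m := by
      rcases Nat.eq_zero_or_pos n with h0 | h0
      · have h2 : E.card ≤ Fintype.card Q := Finset.card_le_univ E
        omega
      have hn0 : (0 : ℝ) < n := by exact_mod_cast h0
      rw [hm]
      refine Nat.le_floor ?_
      have h2 : (E.card : ℝ) * (m + 1) ≤ θ ^ 2 * (n : ℝ) ^ 2 := by
        have h3 : ((E.card * (m + 1) : ℕ) : ℝ) ≤ ((∑ x, bad x : ℕ) : ℝ) := Nat.cast_le.2 hE1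
        rw [hsum] at h3
        rw [hQ] at g4
        push_cast at h3
        exact h3.trans g4
      have h4 : θ * n < m + 1 := by
        rw [hm]
        exact Nat.lt_floor_add_one _
      have h5 : (E.card : ℝ) * (θ * n) ≤ (θ * n) * (θ * n) := by
        calc (E.card : ℝ) * (θ * n) ≤ (E.card : ℝ) * (m + 1) :=
              mul_le_mul_of_nonneg_left h4.le (Nat.cast_nonneg _)
          _ ≤ θ ^ 2 * (n : ℝ) ^ 2 := h2
          _ = (θ * n) * (θ * n) := by ring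
      exact le_of_mul_le_mul_right h5 (by positivity)
    have hR : Fintype.card {x : Q // x ∉ E} ≤ n := by
      rw [← hQ]
      exact Fintype.card_subtype_le _
    obtain ⟨t, ht, hemb2⟩ := tm_embeds (m := m) hM {x : Q // x ∉ E} hR (fun x => c x.1) G Bl g1 g2 g3
      (fun x y => SL x.1 y.1) (fun x y h => Subtype.coe_lt_coe.1 (SL_lt h)) (fun x w y h h' => ⟨w.1, h, h'⟩) (by
        intro x
        have h2 : bad x.1 ≤ m := by
          by_contra h3
          exact x.2 (Finset.mem_filter.2 ⟨Finset.mem_univ _, not_le.1 h3⟩)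
        refine le_trans ?_ h2
        refine Nat.card_le_card_of_injective
          (fun y : {y : {x : Q // x ∉ E} // ¬ GoodS (fun x : {x : Q // x ∉ E} => c x.1) G Bl
            (fun x y => SL x.1 y.1) x y} => (⟨y.1.1, y.2⟩ : {y : Q // ¬ Good c G Bl x.1 y})) ?_
        intro y y' h
        exact Subtype.ext (Subtype.ext (congrArg (fun z => z.1) h)))
    exact ⟨⟨t, ht⟩, covEmb_trans hemb (he ⟨t, ht⟩ Q E hE hemb2)⟩
  have h2 : ∀ t : T, ((@Fintype.card (P1 t) (f1 t) : ℕ) : ℝ) ≤ (A + m) * 16 ^ m := by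
    intro t
    have h3 := hc t
    have h4 : @Fintype.card (LamT t.1 m) (Fintype.ofFinite _) = Nat.card (LamT t.1 m) :=
      (@Nat.card_eq_fintype_card (LamT t.1 m) (Fintype.ofFinite _)).symm
    rw [h4] at h3
    calc ((@Fintype.card (P1 t) (f1 t) : ℕ) : ℝ)
        ≤ (((Nat.card (LamT t.1 m) + m) * 16 ^ m : ℕ) : ℝ) := Nat.cast_le.2 h3
      _ = ((Nat.card (LamT t.1 m) : ℝ) + m) * 16 ^ m := by push_cast; ring
      _ ≤ (A + m) * 16 ^ m := by
        refine mul_le_mul_of_nonneg_right ?_ (by positivity)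
        linarith [hA t.1 t.2]
  calc (b n : ℝ) ≤ ((∑ t : T, @Fintype.card (P1 t) (f1 t) : ℕ) : ℝ) := by exact_mod_cast h1
    _ = ∑ t : T, ((@Fintype.card (P1 t) (f1 t) : ℕ) : ℝ) := by rw [Nat.cast_sum]
    _ ≤ (Fintype.card T : ℝ) * ((A + m) * 16 ^ m) := by
      refine (Finset.sum_le_card_nsmul _ _ ((A + m) * 16 ^ m) fun t _ => h2 t).trans ?_
      rw [nsmul_eq_mul, Finset.card_univ]
    _ ≤ Fintype.card (Tm K M n) * ((A + m) * 16 ^ m) := by
      refine mul_le_mul_of_nonneg_right ?_ (by positivity)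
      exact_mod_cast Fintype.card_subtype_le _

end Pool.Agent.BHalf
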