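import Pool.Agent.Lib_MP_390115_uh.Fin1

/-!
# The exponent 1/2
-/

namespace Pool.Agent.BHalf

open Filter
open Pool.Agent.Lib_MP_390115_co (CoverEmbeds IsCoverUniversal b)

theorem poly_le (D : ℝ) (k : ℕ) (δ : ℝ) (hδ : 0 < δ) :
    ∀ᶠ n : ℕ in atTop, D * ((n : ℝ) + 1) ^ k ≤ (2 : ℝ) ^ (δ * n) := by
  have hr : (1 : ℝ) < (2 : ℝ) ^ δ := Real.one_lt_rpow (by norm_num) hδ
  have h1 := (tendsto_pow_const_div_const_pow_of_one_lt k hr).comp (tendsto_add_atTop_nat 1)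
  have h2 : Tendsto (fun n : ℕ => (D * (2 : ℝ) ^ δ) *
      (((n + 1 : ℕ) : ℝ) ^ k / ((2 : ℝ) ^ δ) ^ (n + 1))) atTop (nhds 0) := by
    have := h1.const_mul (D * (2 : ℝ) ^ δ)
    rw [mul_zero] at this
    exact this
  have h3 : ∀ᶠ n : ℕ in atTop, (D * (2 : ℝ) ^ δ) *
      (((n + 1 : ℕ) : ℝ) ^ k / ((2 : ℝ) ^ δ) ^ (n + 1)) < 1 :=
    h2.eventually (gt_mem_nhds one_pos)
  filter_upwards [h3] with n hn
  have h4 : (0 : ℝ) < (2 : ℝ) ^ δ := by positivity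
  have h5 : (D * (2 : ℝ) ^ δ) * (((n + 1 : ℕ) : ℝ) ^ k / ((2 : ℝ) ^ δ) ^ (n + 1)) =
      D * ((n : ℝ) + 1) ^ k / ((2 : ℝ) ^ δ) ^ n := by
    rw [pow_succ ((2 : ℝ) ^ δ) n]
    push_cast
    field_simp
  rw [h5, div_lt_one (by positivity)] at hn
  rw [Real.rpow_mul (by norm_num), Real.rpow_natCast]
  exact hn.le

theorem card_Tm (K M n : ℕ) : (Fintype.card (Tm K M n) : ℝ) =
    ((n : ℝ) + 1) ^ (K * M) * (((2 ^ K) ^ K * ((2 ^ K) ^ K * (2 ^ K * ((2 ^ M) ^ M) ^ K)) : ℕ) : ℝ) := by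
  have h : Fintype.card (Tm K M n) =
      (n + 1) ^ (K * M) * ((2 ^ K) ^ K * ((2 ^ K) ^ K * (2 ^ K * ((2 ^ M) ^ M) ^ K))) := by
    simp only [Fintype.card_prod, Fintype.card_fun, Fintype.card_fin, Fintype.card_bool]
  rw [h]
  push_cast
  ring

/-- The exponent is at most `1 / 2`. -/
theorem b_half (ε : ℝ) (hε : 0 < ε) :
    ∀ᶠ n : ℕ in atTop, (b n : ℝ) ≤ (2 : ℝ) ^ ((1 / 2 + ε) * n) := by
  obtain ⟨θ0, hθ0, hθ1, hsm⟩ := small_sets (ε / 8) (by positivity)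
  set θ : ℝ := min θ0 (ε / 56) with hθdef
  have hθ : 0 < θ := lt_min hθ0 (by positivity)
  have hθle : θ ≤ θ0 := min_le_left _ _
  have hθle2 : θ ≤ ε / 56 := min_le_right _ _
  obtain ⟨M, hM⟩ := exists_nat_gt (8 / ε)
  have hM0 : (0 : ℝ) < M := lt_trans (by positivity) hM
  have hM1 : 0 < M := by exact_mod_cast hM0
  have hM2 : 1 / (M : ℝ) ≤ ε / 8 := by
    rw [div_le_iff₀ hM0]
    rw [div_lt_iff₀ hε] at hM
    linarith
  obtain ⟨K, n0, hS⟩ := structure_thm (θ ^ 2) (by positivity)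
  set D0 : ℝ := (((2 ^ K) ^ K * ((2 ^ K) ^ K * (2 ^ K * ((2 ^ M) ^ M) ^ K)) : ℕ) : ℝ) with hD0
  have hD0p : 0 ≤ D0 := Nat.cast_nonneg _
  filter_upwards [poly_le (D0 * (2 * (2 : ℝ) ^ ((K : ℝ) * M))) (K * M + 1) (ε / 2) (by positivity),
    eventually_ge_atTop n0, eventually_ge_atTop 1] with n hn1 hn2 hn3
  have hn0 : (1 : ℝ) ≤ n := by exact_mod_cast hn3
  set m : ℕ := ⌊θ * n⌋₊ with hm
  have hmle : (m : ℝ) ≤ θ * n := Nat.floor_le (by positivity)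
  have hmn : (m : ℝ) ≤ n := by
    have : θ ≤ 1 := hθle.trans hθ1
    nlinarith
  set C : ℝ := (n : ℝ) / 2 + n / M + K * M with hC
  set X : ℝ := (2 : ℝ) ^ (ε / 8 * n) * 5 ^ m * (2 : ℝ) ^ C with hX
  have hXp : 0 < X := by positivity
  have hA : ∀ t : Tm K M n, Valid t C → (Nat.card (LamT t m) : ℝ) ≤ n * X := by
    intro t ht
    refine card_LamT t ht (hsm n m (Fintype.card (PT t)) ht.1 (hmle.trans ?_))
    exact mul_le_mul_of_nonneg_right hθle (by linarith)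
  have h1 := b_le_templates K n0 M hM1 θ hθ hS n hn2 m rfl (n * X) (by positivity) hA
  have h5 : (5 : ℝ) ^ m ≤ (2 : ℝ) ^ (3 * (m : ℝ)) := by
    have : (2 : ℝ) ^ (3 * (m : ℝ)) = 8 ^ m := by
      rw [Real.rpow_mul (by norm_num), Real.rpow_natCast]
      norm_num
    rw [this]
    exact pow_le_pow_left₀ (by norm_num) (by norm_num) m
  have h16 : (16 : ℝ) ^ m = (2 : ℝ) ^ (4 * (m : ℝ)) := by
    rw [Real.rpow_mul (by norm_num), Real.rpow_natCast]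
    norm_num
  have hC0 : 0 ≤ C := by positivity
  have hX1 : 1 ≤ X := by
    rw [hX]
    have e1 : (1 : ℝ) ≤ (2 : ℝ) ^ (ε / 8 * n) := Real.one_le_rpow (by norm_num) (by positivity)
    have e2 : (1 : ℝ) ≤ (5 : ℝ) ^ m := one_le_pow₀ (by norm_num)
    have e3 : (1 : ℝ) ≤ (2 : ℝ) ^ C := Real.one_le_rpow (by norm_num) hC0
    calc (1 : ℝ) = 1 * 1 * 1 := by ring
      _ ≤ (2 : ℝ) ^ (ε / 8 * n) * 5 ^ m * (2 : ℝ) ^ C := by gcongr
  have h2 : (n : ℝ) * X + m ≤ 2 * (n + 1) * X := by nlinarith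
  have h3 : X * 16 ^ m ≤ (2 : ℝ) ^ ((K : ℝ) * M) * (2 : ℝ) ^ ((1 / 2 + ε / 2) * n) := by
    calc X * 16 ^ m ≤ (2 : ℝ) ^ (ε / 8 * n) * (2 : ℝ) ^ (3 * (m : ℝ)) * (2 : ℝ) ^ C *
          (2 : ℝ) ^ (4 * (m : ℝ)) := by
          rw [hX, h16]
          gcongr
      _ = (2 : ℝ) ^ (ε / 8 * n + 3 * (m : ℝ) + C + 4 * (m : ℝ)) := by
          rw [← Real.rpow_add (by norm_num), ← Real.rpow_add (by norm_num),
            ← Real.rpow_add (by norm_num)]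
      _ ≤ (2 : ℝ) ^ ((K : ℝ) * M + (1 / 2 + ε / 2) * n) := by
          refine Real.rpow_le_rpow_of_exponent_le (by norm_num) ?_
          have e1 : 7 * (m : ℝ) ≤ ε / 8 * n := by
            calc 7 * (m : ℝ) ≤ 7 * (θ * n) := by linarith
              _ ≤ 7 * (ε / 56 * n) := by
                have := mul_le_mul_of_nonneg_right hθle2 (by linarith : (0 : ℝ) ≤ n)
                linarith
              _ = ε / 8 * n := by ring
          have e2 : (n : ℝ) / M ≤ ε / 8 * n := by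
            calc (n : ℝ) / M = 1 / M * n := by ring
              _ ≤ ε / 8 * n := mul_le_mul_of_nonneg_right hM2 (by linarith)
          rw [hC]
          have e3 : (0 : ℝ) ≤ ε * n := by positivity
          nlinarith
      _ = (2 : ℝ) ^ ((K : ℝ) * M) * (2 : ℝ) ^ ((1 / 2 + ε / 2) * n) := by
          rw [Real.rpow_add (by norm_num)]
  calc (b n : ℝ) ≤ Fintype.card (Tm K M n) * ((n * X + m) * 16 ^ m) := h1
    _ ≤ (((n : ℝ) + 1) ^ (K * M) * D0) * ((2 * (n + 1) * X) * 16 ^ m) := by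
        rw [card_Tm]
        gcongr
    _ = (((n : ℝ) + 1) ^ (K * M) * D0) * (2 * (n + 1)) * (X * 16 ^ m) := by ring
    _ ≤ (((n : ℝ) + 1) ^ (K * M) * D0) * (2 * (n + 1)) *
        ((2 : ℝ) ^ ((K : ℝ) * M) * (2 : ℝ) ^ ((1 / 2 + ε / 2) * n)) := by gcongr
    _ = (D0 * (2 * (2 : ℝ) ^ ((K : ℝ) * M)) * ((n : ℝ) + 1) ^ (K * M + 1)) *
        (2 : ℝ) ^ ((1 / 2 + ε / 2) * n) := by ring
    _ ≤ (2 : ℝ) ^ (ε / 2 * n) * (2 : ℝ) ^ ((1 / 2 + ε / 2) * n) := by gcongr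
    _ = (2 : ℝ) ^ ((1 / 2 + ε) * n) := by
        rw [← Real.rpow_add (by norm_num)]
        ring_nf

end Pool.Agent.BHalf
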