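import Pool.Agent.Lib_MP_390115_up.Gen

/-!
# Definitions for the exponent 1/2
-/

namespace Pool.Agent.BHalf

open Pool.Agent.Lib_MP_390115_co (CoverEmbeds IsCoverUniversal b)

/-- `y` is above `x` with an element between -/
def SL {Q : Type} [PartialOrder Q] (x y : Q) : Prop := ∃ w, x < w ∧ w < y

/-- A scheme: labels `Lam`, positions `P`, heavy positions `hv`, and `two h v`: the heavy position `h` has
information about the light position `v`. A label has a position and four sets of positions: below it, below it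
with an element between, above it, above it with an element between. -/
structure Sch3 where
  Lam : Type
  P : Type
  hv : P → Prop
  two : P → P → Prop
  ps : Lam → P
  D : Lam → Set P
  D2 : Lam → Set P
  U : Lam → Set P
  U2 : Lam → Set P

/-- plain information at `p` about `q` -/
def Sch3.pl (S : Sch3) (p q : S.P) : Prop := S.hv q ∨ ¬ S.hv p

/-- refined information at `p` about `q` -/
def Sch3.ref (S : Sch3) (p q : S.P) : Prop :=
  (S.hv q ∧ (S.hv p ∨ ¬ S.two q p)) ∨ (S.hv p ∧ ¬ S.hv q ∧ S.two p q)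

/-- an order embedding which maps `x < y` to a covering pair unless `SS x y` -/
def CovEmb (Q P : Type) [PartialOrder Q] [PartialOrder P] (SS : Q → Q → Prop) : Prop :=
  ∃ g : Q ↪o P, ∀ x y : Q, x < y → ¬ SS x y → g x ⋖ g y

/-- good pairs for a colouring `c` and relations `G` (gray), `Bl` (black) between colours -/
def Good {Q : Type} [PartialOrder Q] {K : ℕ} (c : Q → Fin K) (G Bl : Fin K → Fin K → Prop)
    (x y : Q) : Prop :=
  (G (c x) (c y) ∧ ¬ y ≤ x) ∨ (G (c y) (c x) ∧ ¬ x ≤ y) ∨ (Bl (c x) (c y) ∧ SL x y) ∨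
    (Bl (c y) (c x) ∧ SL y x) ∨
    (¬ G (c x) (c y) ∧ ¬ G (c y) (c x) ∧ ¬ Bl (c x) (c y) ∧ ¬ Bl (c y) (c x) ∧ ¬ x ≤ y ∧ ¬ y ≤ x)

end Pool.Agent.BHalf
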