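import Pool.Agent.Lib_MP_390115_uh.HDef

/-!
# Interface for the exponent 1/2 (statements only)

Never import this file in a proof.
-/

namespace Pool.Agent.BHalf

open Pool.Agent.Lib_MP_390115_co (CoverEmbeds IsCoverUniversal b)

/-- The scheme with heavy positions (file Sch3.lean). -/
theorem sch3_embeds (S : Sch3) : ∃ o : PartialOrder S.Lam,
    ∀ (Q : Type) [PartialOrder Q] (SS : Q → Q → Prop), (∀ x w y : Q, x < w → w < y → SS x y) →
      ∀ (pos : Q → S.P), Function.Bijective pos →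
      ∀ lab : Q → S.Lam, (∀ x, S.ps (lab x) = pos x) →
      (∀ x y, S.pl (pos x) (pos y) → (pos y ∈ S.D (lab x) ↔ y < x)) →
      (∀ x y, S.pl (pos x) (pos y) → (pos y ∈ S.U (lab x) ↔ x < y)) →
      (∀ x y, S.ref (pos x) (pos y) → (pos y ∈ S.D2 (lab x) ↔ SS y x)) →
      (∀ x y, S.ref (pos x) (pos y) → (pos y ∈ S.U2 (lab x) ↔ SS x y)) →
      @CovEmb Q S.Lam _ o SS := by
  sorry

/-- Adding a few exceptional elements (file Ext.lean). -/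
theorem ext_embeds (P0 : Type) [PartialOrder P0] [Fintype P0] (k : ℕ) :
    ∃ (P1 : Type) (_ : PartialOrder P1) (_ : Fintype P1),
      Fintype.card P1 ≤ (Fintype.card P0 + k) * 16 ^ k ∧
      ∀ (Q : Type) [PartialOrder Q] [Fintype Q] (E : Finset Q), E.card ≤ k →
        CovEmb {x : Q // x ∉ E} P0 (fun x y => SL x.1 y.1) → CoverEmbeds Q P1 := by
  sorry

/-- Counting functions with few exceptions (file Cnt.lean). -/
theorem cnt_fun {P : Type} [Fintype P] [DecidableEq P] (al : P → Finset (Fin 5))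
    (e : P → ℕ) (hal : ∀ q, (al q).card ≤ 2 ^ e q) (m : ℕ) :
    Nat.card {f : P → Fin 5 // ∃ X : Finset P, X.card ≤ m ∧ ∀ q, q ∉ X → f q ∈ al q} ≤
      (∑ j ∈ Finset.range (m + 1), (Fintype.card P).choose j) * 5 ^ m * 2 ^ ∑ q, e q := by
  sorry

/-- Few small sets (file Small.lean). -/
theorem small_sets (ε : ℝ) (hε : 0 < ε) : ∃ θ : ℝ, 0 < θ ∧ θ ≤ 1 ∧ ∀ n m k : ℕ, k ≤ n →
    (m : ℝ) ≤ θ * n →
    ((∑ j ∈ Finset.range (m + 1), k.choose j : ℕ) : ℝ) ≤ (2 : ℝ) ^ (ε * n) := by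
  sorry

/-- Splitting the information between heavy and light positions (file Split.lean). -/
theorem cost_split {Q : Type} [Fintype Q] (K M n : ℕ) (hM : 0 < M) (hn : Fintype.card Q ≤ n)
    (c : Q → Fin K) (G : Fin K → Fin K → Prop)
    (hG : ∀ i j k, (G i j ∨ G j i) → (G j k ∨ G k j) → ¬ (G i k ∨ G k i)) :
    ∃ (r : Q → Fin M) (hv : Fin K → Prop) (two : Fin K → Fin M → Fin M → Prop),
      (∀ i j, (G i j ∨ G j i) → hv i → ¬ hv j) ∧
      (∀ x, hv (c x) → (Nat.card {y : Q // (G (c x) (c y) ∨ G (c y) (c x)) ∧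
        two (c x) (r x) (r y)} : ℝ) ≤ n / 2 + n / M + K * M) ∧
      (∀ x, ¬ hv (c x) → (Nat.card {y : Q // G (c x) (c y) ∨ G (c y) (c x)} : ℝ) +
        Nat.card {y : Q // (G (c x) (c y) ∨ G (c y) (c x)) ∧ hv (c y) ∧
          ¬ two (c y) (r y) (r x)} ≤ n / 2 + n / M + K * M) := by
  sorry

/-- Time blocks (file Blk.lean). -/
theorem exists_bl (Q : Type) [PartialOrder Q] [Fintype Q] (B : ℕ) (hB : 0 < B) :
    ∃ bl : Q → Fin B, (∀ x y, x < y → bl x ≤ bl y) ∧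
      ∀ k, Nat.card {x : Q // bl x = k} ≤ Fintype.card Q / B + 1 := by
  sorry

/-- The black lemma (file Black.lean): `s1, s2, s3` are parts, `p1, p2, p3` pieces of them in increasing order. -/
theorem black_lemma {Q : Type} [PartialOrder Q] [Fintype Q] [DecidableEq Q] (Gr : SimpleGraph Q)
    [DecidableRel Gr.Adj] (hGr : ∀ x y, Gr.Adj x y ↔ x < y ∨ y < x)
    (ε κ δ : ℝ) (hε : 0 < ε) (hεκ : ε ≤ κ) (hδ : ε + ε / κ ≤ δ) (s1 s2 s3 p1 p2 p3 : Finset Q)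
    (h1 : p1 ⊆ s1) (h2 : p2 ⊆ s2) (h3 : p3 ⊆ s3) (k1 : κ * s1.card ≤ p1.card)
    (k2 : κ * s2.card ≤ p2.card) (k3 : κ * s3.card ≤ p3.card)
    (n1 : s1.Nonempty) (n2 : s2.Nonempty) (n3 : s3.Nonempty)
    (u12 : Gr.IsUniform ε s1 s2) (u23 : Gr.IsUniform ε s2 s3)
    (d12 : δ ≤ (Gr.edgeDensity s1 s2 : ℝ)) (d23 : δ ≤ (Gr.edgeDensity s2 s3 : ℝ))
    (o12 : ∀ x ∈ p1, ∀ y ∈ p2, ¬ y < x) (o23 : ∀ x ∈ p2, ∀ y ∈ p3, ¬ y < x) :
    (Nat.card {z : Q × Q // z.1 ∈ p1 ∧ z.2 ∈ p3 ∧ ¬ SL z.1 z.2} : ℝ) ≤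
      2 * ε * s1.card * s3.card := by
  sorry

/-- The structure theorem (file Struct.lean, from Blk, Black and the regularity lemma of Mathlib). -/
theorem structure_thm (η : ℝ) (hη : 0 < η) : ∃ K n0 : ℕ, ∀ (Q : Type) [PartialOrder Q] [Fintype Q],
    n0 ≤ Fintype.card Q → ∃ (c : Q → Fin K) (G Bl : Fin K → Fin K → Prop),
      (∀ i j, G i j → ¬ G j i ∧ ¬ Bl i j ∧ ¬ Bl j i) ∧ (∀ i j, Bl i j → ¬ Bl j i) ∧
      (∀ i j k, (G i j ∨ G j i) → (G j k ∨ G k j) → ¬ (G i k ∨ G k i)) ∧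
      (Nat.card {z : Q × Q // ¬ Good c G Bl z.1 z.2} : ℝ) ≤ η * (Fintype.card Q : ℝ) ^ 2 := by
  sorry

end Pool.Agent.BHalf
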