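import Mathlib

/-! # The pairs lost in the regularity lemma -/

namespace Pool.Agent.BHalf

open Finset

/-- `x` and `y` are in different parts which form a uniform pair of density at least `δ` -/
def Kept {Q : Type} [Fintype Q] [DecidableEq Q] (Gr : SimpleGraph Q) [DecidableRel Gr.Adj]
    (P : Finpartition (univ : Finset Q)) (ε δ : ℝ) (x y : Q) : Prop :=
  ∃ U ∈ P.parts, ∃ V ∈ P.parts, x ∈ U ∧ y ∈ V ∧ U ≠ V ∧ Gr.IsUniform ε U V ∧
    δ ≤ (Gr.edgeDensity U V : ℝ)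

/-- Few adjacent pairs are not kept. -/
theorem lost_bound {Q : Type} [Fintype Q] [Nonempty Q] [DecidableEq Q] (Gr : SimpleGraph Q)
    [DecidableRel Gr.Adj] (P : Finpartition (univ : Finset Q)) (hP : P.IsEquipartition)
    (ε ε' δ : ℝ) (hε : 0 < ε) (hε' : 0 < ε') (hδ : 0 ≤ δ) (hU : P.IsUniform Gr ε)
    (hl : 4 / ε' ≤ (P.parts.card : ℝ)) :
    (Nat.card {z : Q × Q // Gr.Adj z.1 z.2 ∧ ¬ Kept Gr P ε δ z.1 z.2} : ℝ) ≤
      (4 * ε + ε' / 2 + 4 * δ) * (Fintype.card Q : ℝ) ^ 2 := by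
  classical
  rw [Nat.card_eq_fintype_card, Fintype.card_subtype]
  have hsub : (univ.filter fun z : Q × Q => Gr.Adj z.1 z.2 ∧ ¬ Kept Gr P ε δ z.1 z.2) ⊆
      ((P.nonUniforms Gr ε).biUnion fun UV => UV.1 ×ˢ UV.2) ∪ P.parts.biUnion offDiag ∪
        ((P.sparsePairs Gr δ).biUnion fun UV => Gr.interedges UV.1 UV.2) := by
    rintro ⟨a, b⟩ hz
    rw [mem_filter] at hz
    obtain ⟨-, hadj, hk⟩ := hz
    simp only at hadj hk
    obtain ⟨U, hUP, haU⟩ := P.exists_mem (mem_univ a)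
    obtain ⟨V, hVP, hbV⟩ := P.exists_mem (mem_univ b)
    by_cases hUV : U = V
    · refine mem_union_left _ (mem_union_right _ (mem_biUnion.2 ⟨U, hUP, ?_⟩))
      rw [mem_offDiag]
      exact ⟨haU, hUV ▸ hbV, hadj.ne⟩
    · by_cases h1 : Gr.IsUniform ε U V
      · refine mem_union_right _ (mem_biUnion.2 ⟨(U, V), ?_, ?_⟩)
        · rw [Finpartition.mk_mem_sparsePairs]
          refine ⟨hUP, hVP, hUV, ?_⟩
          by_contra h2
          exact hk ⟨U, hUP, V, hVP, haU, hbV, hUV, h1, not_lt.1 h2⟩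
        · rw [SimpleGraph.mk_mem_interedges_iff]
          exact ⟨haU, hbV, hadj⟩
      · refine mem_union_left _ (mem_union_left _ (mem_biUnion.2 ⟨(U, V), ?_, ?_⟩))
        · rw [Finpartition.mk_mem_nonUniforms]
          exact ⟨hUP, hVP, hUV, h1⟩
        · exact mem_product.2 ⟨haU, hbV⟩
  have h1 := hP.sum_nonUniforms_lt (G := Gr) (ε := ε) univ_nonempty hε hU
  have h2 := hP.card_biUnion_offDiag_le hε' hl
  have h3 := hP.card_interedges_sparsePairs_le (G := Gr) (ε := δ) hδ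
  have h4 := card_le_card hsub
  have h5 := card_union_le (((P.nonUniforms Gr ε).biUnion fun UV => UV.1 ×ˢ UV.2) ∪
    P.parts.biUnion offDiag) ((P.sparsePairs Gr δ).biUnion fun UV => Gr.interedges UV.1 UV.2)
  have h6 := card_union_le ((P.nonUniforms Gr ε).biUnion fun UV => UV.1 ×ˢ UV.2)
    (P.parts.biUnion offDiag)
  have h7 : (((univ.filter fun z : Q × Q => Gr.Adj z.1 z.2 ∧ ¬ Kept Gr P ε δ z.1 z.2).card : ℕ) : ℝ) ≤
      (((P.nonUniforms Gr ε).biUnion fun UV => UV.1 ×ˢ UV.2).card : ℝ) +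
        ((P.parts.biUnion offDiag).card : ℝ) +
        (((P.sparsePairs Gr δ).biUnion fun UV => Gr.interedges UV.1 UV.2).card : ℝ) := by
    exact_mod_cast h4.trans (h5.trans (Nat.add_le_add_right h6 _))
  rw [card_univ] at h1 h2 h3
  nlinarith [h7, h1.le, h2, h3]

end Pool.Agent.BHalf
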