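import Pool.Agent.Lib_MP_390115_uh.HDef
import Pool.Agent.Lib_MP_390115_uh.SDef
import Pool.Agent.Lib_MP_390115_uh.Black

/-!
# The count of the bad pairs of the structure theorem
-/

namespace Pool.Agent.BHalf

open Finset

/-- good pairs, for an arbitrary type of colours -/
def GoodC {Q C : Type} [PartialOrder Q] (c : Q → C) (G Bl : C → C → Prop) (x y : Q) : Prop :=
  (G (c x) (c y) ∧ ¬ y ≤ x) ∨ (G (c y) (c x) ∧ ¬ x ≤ y) ∨ (Bl (c x) (c y) ∧ SL x y) ∨
    (Bl (c y) (c x) ∧ SL y x) ∨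
    (¬ G (c x) (c y) ∧ ¬ G (c y) (c x) ∧ ¬ Bl (c x) (c y) ∧ ¬ Bl (c y) (c x) ∧ ¬ x ≤ y ∧ ¬ y ≤ x)

private theorem sc_block {Q : Type} [Fintype Q] [DecidableEq Q] (B : ℕ) (hB : 0 < B)
    (bl : Q → Fin B) (hc : ∀ k, Nat.card {x : Q // bl x = k} ≤ Fintype.card Q / B + 1) :
    (((univ : Finset (Q × Q)).filter (fun z => bl z.1 = bl z.2)).card : ℝ) ≤
      B * ((Fintype.card Q : ℝ) / B + 1) ^ 2 := by
  classical
  have hsub : (univ : Finset (Q × Q)).filter (fun z => bl z.1 = bl z.2) ⊆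
      (univ : Finset (Fin B)).biUnion (fun k => (univ.filter (fun x => bl x = k)) ×ˢ
        (univ.filter (fun x => bl x = k))) := by
    intro z hz
    simp only [mem_filter, mem_univ, true_and] at hz
    simp only [mem_biUnion, mem_univ, true_and, mem_product, mem_filter]
    exact ⟨bl z.1, rfl, hz.symm⟩
  have h1 : ∀ k : Fin B, (((univ : Finset Q).filter (fun x => bl x = k)).card : ℝ) ≤
      (Fintype.card Q : ℝ) / B + 1 := by
    intro k
    have h := hc k
    rw [Nat.card_eq_fintype_card, Fintype.card_subtype] at h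
    have h' : (((univ : Finset Q).filter (fun x => bl x = k)).card : ℝ) ≤
        ((Fintype.card Q / B + 1 : ℕ) : ℝ) := by exact_mod_cast h
    refine h'.trans ?_
    push_cast
    have := @Nat.cast_div_le ℝ _ _ _ (Fintype.card Q) B
    linarith
  calc (((univ : Finset (Q × Q)).filter (fun z => bl z.1 = bl z.2)).card : ℝ)
      ≤ (((univ : Finset (Fin B)).biUnion (fun k => (univ.filter (fun x => bl x = k)) ×ˢ
        (univ.filter (fun x => bl x = k)))).card : ℝ) := by exact_mod_cast card_le_card hsub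
    _ ≤ ∑ k : Fin B, (((univ.filter (fun x => bl x = k)) ×ˢ
        (univ.filter (fun x : Q => bl x = k))).card : ℝ) := by exact_mod_cast card_biUnion_le
    _ ≤ ∑ _k : Fin B, ((Fintype.card Q : ℝ) / B + 1) ^ 2 := by
        refine sum_le_sum fun k _ => ?_
        rw [card_product]
        push_cast
        rw [sq]
        exact mul_le_mul (h1 k) (h1 k) (by positivity) (by positivity)
    _ = B * ((Fintype.card Q : ℝ) / B + 1) ^ 2 := by simp

private theorem sc_negl {Q : Type} [Fintype Q] [DecidableEq Q] (κ : ℝ) (hκ : 0 ≤ κ) (B : ℕ)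
    (P : Finpartition (univ : Finset Q)) (bl : Q → Fin B) :
    (((univ : Finset Q).filter (fun x => ((pcs bl (col P bl x)).card : ℝ) <
      κ * ((col P bl x).1.card : ℝ))).card : ℝ) ≤ κ * B * (Fintype.card Q : ℝ) := by
  classical
  have hsub : (univ : Finset Q).filter (fun x => ((pcs bl (col P bl x)).card : ℝ) <
      κ * ((col P bl x).1.card : ℝ)) ⊆
      ((P.parts ×ˢ (univ : Finset (Fin B))).filter (fun p => ((pcs bl p).card : ℝ) <
        κ * (p.1.card : ℝ))).biUnion (fun p => pcs bl p) := by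
    intro x hx
    simp only [mem_filter, mem_univ, true_and] at hx
    simp only [mem_biUnion, mem_filter, mem_product, mem_univ, and_true]
    refine ⟨col P bl x, ⟨P.part_mem.2 (mem_univ x), hx⟩, ?_⟩
    exact mem_filter.2 ⟨P.mem_part (mem_univ x), rfl⟩
  calc (((univ : Finset Q).filter (fun x => ((pcs bl (col P bl x)).card : ℝ) <
      κ * ((col P bl x).1.card : ℝ))).card : ℝ)
      ≤ ((((P.parts ×ˢ (univ : Finset (Fin B))).filter (fun p => ((pcs bl p).card : ℝ) <
        κ * (p.1.card : ℝ))).biUnion (fun p => pcs bl p)).card : ℝ) := by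
          exact_mod_cast card_le_card hsub
    _ ≤ ∑ p ∈ (P.parts ×ˢ (univ : Finset (Fin B))).filter (fun p => ((pcs bl p).card : ℝ) <
        κ * (p.1.card : ℝ)), ((pcs bl p).card : ℝ) := by exact_mod_cast card_biUnion_le
    _ ≤ ∑ p ∈ (P.parts ×ˢ (univ : Finset (Fin B))).filter (fun p => ((pcs bl p).card : ℝ) <
        κ * (p.1.card : ℝ)), κ * (p.1.card : ℝ) := by
          refine sum_le_sum fun p hp => ?_
          exact (mem_filter.1 hp).2.le
    _ ≤ ∑ p ∈ P.parts ×ˢ (univ : Finset (Fin B)), κ * (p.1.card : ℝ) := by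
          refine sum_le_sum_of_subset_of_nonneg (filter_subset _ _) fun p _ _ => by positivity
    _ = κ * B * (Fintype.card Q : ℝ) := by
          rw [sum_product]
          simp only [sum_const, card_univ, Fintype.card_fin, nsmul_eq_mul]
          rw [← mul_sum, ← mul_sum]
          have h := P.sum_card_parts
          have h' : (∑ s ∈ P.parts, (s.card : ℝ)) = (Fintype.card Q : ℝ) := by
            rw [← card_univ]
            exact_mod_cast h
          rw [h']
          ring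

private theorem sc_black {Q : Type} [PartialOrder Q] [Fintype Q] [DecidableEq Q]
    (Gr : SimpleGraph Q) [DecidableRel Gr.Adj] (hGr : ∀ x y, Gr.Adj x y ↔ x < y ∨ y < x)
    (ε κ δ : ℝ) (hε : 0 < ε) (hεκ : ε ≤ κ) (hδ : ε + ε / κ ≤ δ) (B : ℕ)
    (P : Finpartition (univ : Finset Q)) (bl : Q → Fin B) (hbl : ∀ x y, x < y → bl x ≤ bl y)
    [DecidablePred (fun z : Q × Q => B0 Gr ε κ δ P bl (col P bl z.1) (col P bl z.2) ∧
      ¬ SL z.1 z.2)] :
    (((univ : Finset (Q × Q)).filter (fun z => B0 Gr ε κ δ P bl (col P bl z.1) (col P bl z.2) ∧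
      ¬ SL z.1 z.2)).card : ℝ) ≤ 2 * ε * B ^ 2 * (Fintype.card Q : ℝ) ^ 2 := by
  classical
  have hsub : (univ : Finset (Q × Q)).filter (fun z => B0 Gr ε κ δ P bl (col P bl z.1)
      (col P bl z.2) ∧ ¬ SL z.1 z.2) ⊆
      (((P.parts ×ˢ (univ : Finset (Fin B))) ×ˢ (P.parts ×ˢ (univ : Finset (Fin B)))).filter
        (fun w => B0 Gr ε κ δ P bl w.1 w.2)).biUnion
        (fun w => (univ : Finset (Q × Q)).filter (fun z => z.1 ∈ pcs bl w.1 ∧ z.2 ∈ pcs bl w.2 ∧
          ¬ SL z.1 z.2)) := by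
    intro z hz
    simp only [mem_filter, mem_univ, true_and] at hz
    simp only [mem_biUnion, mem_filter, mem_product, mem_univ, and_true, true_and]
    refine ⟨(col P bl z.1, col P bl z.2), ⟨⟨P.part_mem.2 (mem_univ _), P.part_mem.2 (mem_univ _)⟩,
      hz.1⟩, ?_, ?_, hz.2⟩
    · exact mem_filter.2 ⟨P.mem_part (mem_univ _), rfl⟩
    · exact mem_filter.2 ⟨P.mem_part (mem_univ _), rfl⟩
  have hone : ∀ w : (Finset Q × Fin B) × (Finset Q × Fin B), B0 Gr ε κ δ P bl w.1 w.2 →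
      (((univ : Finset (Q × Q)).filter (fun z => z.1 ∈ pcs bl w.1 ∧ z.2 ∈ pcs bl w.2 ∧
          ¬ SL z.1 z.2)).card : ℝ) ≤ 2 * ε * (w.1.1.card : ℝ) * (w.2.1.card : ℝ) := by
    rintro ⟨p, q⟩ ⟨r, hpr, hrq⟩
    obtain ⟨hp, hr, hlt1, hne1, hu1, hd1, hk1, hk2⟩ := hpr
    obtain ⟨-, hq, hlt2, hne2, hu2, hd2, hk2', hk3⟩ := hrq
    have h := black_lemma Gr hGr ε κ δ hε hεκ hδ p.1 r.1 q.1 (pcs bl p) (pcs bl r) (pcs bl q)
      (filter_subset _ _) (filter_subset _ _) (filter_subset _ _) hk1 hk2 hk3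
      (P.nonempty_of_mem_parts hp) (P.nonempty_of_mem_parts hr) (P.nonempty_of_mem_parts hq)
      hu1 hu2 hd1 hd2 ?_ ?_
    · rw [Nat.card_eq_fintype_card, Fintype.card_subtype] at h
      exact h
    · intro x hx y hy hyx
      have h1 := hbl y x hyx
      rw [(mem_filter.1 hx).2, (mem_filter.1 hy).2] at h1
      exact absurd hlt1 (not_lt.2 h1)
    · intro x hx y hy hyx
      have h1 := hbl y x hyx
      rw [(mem_filter.1 hx).2, (mem_filter.1 hy).2] at h1
      exact absurd hlt2 (not_lt.2 h1)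
  have hsum : (∑ p ∈ P.parts ×ˢ (univ : Finset (Fin B)), (p.1.card : ℝ)) =
      B * (Fintype.card Q : ℝ) := by
    rw [sum_product]
    simp only [sum_const, card_univ, Fintype.card_fin, nsmul_eq_mul]
    rw [← mul_sum]
    have h := P.sum_card_parts
    have h' : (∑ s ∈ P.parts, (s.card : ℝ)) = (Fintype.card Q : ℝ) := by
      rw [← card_univ]
      exact_mod_cast h
    rw [h']
  calc (((univ : Finset (Q × Q)).filter (fun z => B0 Gr ε κ δ P bl (col P bl z.1)
      (col P bl z.2) ∧ ¬ SL z.1 z.2)).card : ℝ)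
      ≤ (((((P.parts ×ˢ (univ : Finset (Fin B))) ×ˢ (P.parts ×ˢ (univ : Finset (Fin B)))).filter
        (fun w => B0 Gr ε κ δ P bl w.1 w.2)).biUnion
        (fun w => (univ : Finset (Q × Q)).filter (fun z => z.1 ∈ pcs bl w.1 ∧ z.2 ∈ pcs bl w.2 ∧
          ¬ SL z.1 z.2))).card : ℝ) := by exact_mod_cast card_le_card hsub
    _ ≤ ∑ w ∈ ((P.parts ×ˢ (univ : Finset (Fin B))) ×ˢ (P.parts ×ˢ (univ : Finset (Fin B)))).filter
        (fun w => B0 Gr ε κ δ P bl w.1 w.2),
        (((univ : Finset (Q × Q)).filter (fun z => z.1 ∈ pcs bl w.1 ∧ z.2 ∈ pcs bl w.2 ∧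
          ¬ SL z.1 z.2)).card : ℝ) := by exact_mod_cast card_biUnion_le
    _ ≤ ∑ w ∈ ((P.parts ×ˢ (univ : Finset (Fin B))) ×ˢ (P.parts ×ˢ (univ : Finset (Fin B)))).filter
        (fun w => B0 Gr ε κ δ P bl w.1 w.2), 2 * ε * (w.1.1.card : ℝ) * (w.2.1.card : ℝ) := by
          refine sum_le_sum fun w hw => ?_
          exact hone w (mem_filter.1 hw).2
    _ ≤ ∑ w ∈ (P.parts ×ˢ (univ : Finset (Fin B))) ×ˢ (P.parts ×ˢ (univ : Finset (Fin B))),
        2 * ε * (w.1.1.card : ℝ) * (w.2.1.card : ℝ) := by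
          refine sum_le_sum_of_subset_of_nonneg (filter_subset _ _) fun p _ _ => by positivity
    _ = 2 * ε * B ^ 2 * (Fintype.card Q : ℝ) ^ 2 := by
          rw [sum_product]
          simp only [← mul_sum]
          rw [← sum_mul, ← mul_sum, hsum]
          ring

/-- The count of the bad pairs. -/
theorem bad_count {Q : Type} [PartialOrder Q] [Fintype Q] [DecidableEq Q] (Gr : SimpleGraph Q)
    [DecidableRel Gr.Adj] (hGr : ∀ x y, Gr.Adj x y ↔ x < y ∨ y < x) (ε κ δ : ℝ) (hε : 0 < ε)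
    (hεκ : ε ≤ κ) (hδ : ε + ε / κ ≤ δ) (B : ℕ) (hB : 0 < B)
    (P : Finpartition (Finset.univ : Finset Q)) (hP : P.IsEquipartition)
    (hl : 4 / ε ≤ (P.parts.card : ℝ)) (hu : P.IsUniform Gr ε)
    (bl : Q → Fin B) (hbl : ∀ x y, x < y → bl x ≤ bl y)
    (hc : ∀ k, Nat.card {x : Q // bl x = k} ≤ Fintype.card Q / B + 1) :
    (Nat.card {z : Q × Q // ¬ GoodC (col P bl) (GG Gr ε κ δ P bl) (B0 Gr ε κ δ P bl) z.1 z.2} : ℝ) ≤
      B * ((Fintype.card Q : ℝ) / B + 1) ^ 2 + 2 * κ * B * (Fintype.card Q : ℝ) ^ 2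
        + (ε / 2 + 4 * ε + 4 * δ) * (Fintype.card Q : ℝ) ^ 2
        + 4 * ε * B ^ 2 * (Fintype.card Q : ℝ) ^ 2 := by
  classical
  have hκ : 0 < κ := hε.trans_le hεκ
  have hδ0 : 0 < δ := lt_of_lt_of_le (by positivity) hδ
  rcases isEmpty_or_nonempty Q with hQ | hQ
  · have : Nat.card {z : Q × Q // ¬ GoodC (col P bl) (GG Gr ε κ δ P bl) (B0 Gr ε κ δ P bl)
        z.1 z.2} = 0 := by
      rw [Nat.card_eq_zero]
      left
      exact ⟨fun z => hQ.elim z.1.1⟩
    rw [this]
    push_cast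
    positivity
  set n : ℝ := (Fintype.card Q : ℝ) with hn
  rw [Nat.card_eq_fintype_card, Fintype.card_subtype]
  set NG : Finset Q := (univ : Finset Q).filter (fun x => ((pcs bl (col P bl x)).card : ℝ) <
      κ * ((col P bl x).1.card : ℝ)) with hNG
  set D1 : Finset (Q × Q) := (univ : Finset (Q × Q)).filter (fun z => bl z.1 = bl z.2) with hD1
  set D2 : Finset (Q × Q) := NG ×ˢ (univ : Finset Q) with hD2
  set D3 : Finset (Q × Q) := (univ : Finset Q) ×ˢ NG with hD3
  set D4 : Finset (Q × Q) := P.parts.biUnion offDiag with hD4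
  set D5 : Finset (Q × Q) := (P.nonUniforms Gr ε).biUnion fun (U, V) ↦ U ×ˢ V with hD5
  set D6 : Finset (Q × Q) := (P.sparsePairs Gr δ).biUnion fun (U, V) ↦ Gr.interedges U V with hD6
  set D7 : Finset (Q × Q) := (univ : Finset (Q × Q)).filter (fun z =>
    B0 Gr ε κ δ P bl (col P bl z.1) (col P bl z.2) ∧ ¬ SL z.1 z.2) with hD7
  set D8 : Finset (Q × Q) := D7.image Prod.swap with hD8
  have c1 : (D1.card : ℝ) ≤ B * (n / B + 1) ^ 2 := sc_block B hB bl hc
  have cN : (NG.card : ℝ) ≤ κ * B * n := sc_negl κ hκ.le B P bl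
  have c2 : (D2.card : ℝ) ≤ κ * B * n ^ 2 := by
    rw [hD2, card_product]
    push_cast
    rw [card_univ]
    calc (NG.card : ℝ) * (Fintype.card Q : ℝ) ≤ (κ * B * n) * n := by gcongr
      _ = κ * B * n ^ 2 := by ring
  have c3 : (D3.card : ℝ) ≤ κ * B * n ^ 2 := by
    rw [hD3, card_product]
    push_cast
    rw [card_univ]
    calc (Fintype.card Q : ℝ) * (NG.card : ℝ) ≤ n * (κ * B * n) := by gcongr
      _ = κ * B * n ^ 2 := by ring
  have c4 : (D4.card : ℝ) ≤ ε / 2 * n ^ 2 := by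
    have h := Finpartition.IsEquipartition.card_biUnion_offDiag_le (𝕜 := ℝ) hε hP hl
    rwa [card_univ] at h
  have c5 : (D5.card : ℝ) ≤ 4 * ε * n ^ 2 := by
    have h := Finpartition.IsEquipartition.sum_nonUniforms_lt (𝕜 := ℝ) (G := Gr)
      (A := (univ : Finset Q)) univ_nonempty hε hP hu
    rw [card_univ] at h
    exact h.le
  have c6 : (D6.card : ℝ) ≤ 4 * δ * n ^ 2 := by
    have h := Finpartition.IsEquipartition.card_interedges_sparsePairs_le (𝕜 := ℝ) (G := Gr)
      (A := (univ : Finset Q)) hP hδ0.le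
    rwa [card_univ] at h
  have c7 : (D7.card : ℝ) ≤ 2 * ε * B ^ 2 * n ^ 2 :=
    sc_black Gr hGr ε κ δ hε hεκ hδ B P bl hbl
  have c8 : (D8.card : ℝ) ≤ 2 * ε * B ^ 2 * n ^ 2 := by
    refine le_trans ?_ c7
    exact_mod_cast card_image_le
  have hsub : (univ : Finset (Q × Q)).filter (fun z => ¬ GoodC (col P bl) (GG Gr ε κ δ P bl)
      (B0 Gr ε κ δ P bl) z.1 z.2) ⊆ D1 ∪ D2 ∪ D3 ∪ D4 ∪ D5 ∪ D6 ∪ D7 ∪ D8 := by
    rintro ⟨x, y⟩ hz
    simp only [mem_filter, mem_univ, true_and] at hz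
    by_contra hcon
    simp only [mem_union, not_or] at hcon
    obtain ⟨⟨⟨⟨⟨⟨⟨h1, h2⟩, h3⟩, h4⟩, h5⟩, h6⟩, h7⟩, h8⟩ := hcon
    have hb : bl x ≠ bl y := by
      intro h
      exact h1 (by rw [hD1]; simp [h])
    have hx : κ * ((col P bl x).1.card : ℝ) ≤ ((pcs bl (col P bl x)).card : ℝ) := by
      by_contra h
      exact h2 (by rw [hD2, hNG]; simp; exact not_le.1 h)
    have hy : κ * ((col P bl y).1.card : ℝ) ≤ ((pcs bl (col P bl y)).card : ℝ) := by
      by_contra h
      exact h3 (by rw [hD3, hNG]; simp; exact not_le.1 h)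
    have hxy : x ≠ y := fun h => hb (by rw [h])
    have hpx : (col P bl x).1 ∈ P.parts := P.part_mem.2 (mem_univ x)
    have hpy : (col P bl y).1 ∈ P.parts := P.part_mem.2 (mem_univ y)
    have hmx : x ∈ (col P bl x).1 := P.mem_part (mem_univ x)
    have hmy : y ∈ (col P bl y).1 := P.mem_part (mem_univ y)
    have hpp : (col P bl x).1 ≠ (col P bl y).1 := by
      intro h
      refine h4 ?_
      rw [hD4, mem_biUnion]
      refine ⟨(col P bl x).1, hpx, ?_⟩
      rw [mem_offDiag]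
      exact ⟨hmx, by rw [h]; exact hmy, hxy⟩
    have hun : Gr.IsUniform ε (col P bl x).1 (col P bl y).1 := by
      by_contra h
      refine h5 ?_
      rw [hD5, mem_biUnion]
      refine ⟨((col P bl x).1, (col P bl y).1), ?_, ?_⟩
      · rw [Finpartition.mk_mem_nonUniforms]
        exact ⟨hpx, hpy, hpp, h⟩
      · simp only [mem_product]
        exact ⟨hmx, hmy⟩
    have hde : Gr.Adj x y → δ ≤ (Gr.edgeDensity (col P bl x).1 (col P bl y).1 : ℝ) := by
      intro hadj
      by_contra h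
      refine h6 ?_
      rw [hD6, mem_biUnion]
      refine ⟨((col P bl x).1, (col P bl y).1), ?_, ?_⟩
      · rw [Finpartition.mk_mem_sparsePairs]
        exact ⟨hpx, hpy, hpp, not_le.1 h⟩
      · simp only [SimpleGraph.mem_interedges_iff]
        exact ⟨hmx, hmy, hadj⟩
    have hs7 : B0 Gr ε κ δ P bl (col P bl x) (col P bl y) → SL x y := by
      intro h
      by_contra hs
      exact h7 (by rw [hD7]; simp only [mem_filter, mem_univ, true_and]; exact ⟨h, hs⟩)
    have hs8 : B0 Gr ε κ δ P bl (col P bl y) (col P bl x) → SL y x := by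
      intro h
      by_contra hs
      refine h8 ?_
      rw [hD8, mem_image]
      exact ⟨(y, x), by rw [hD7]; simp only [mem_filter, mem_univ, true_and]; exact ⟨h, hs⟩, rfl⟩
    apply hz
    by_cases b1 : B0 Gr ε κ δ P bl (col P bl x) (col P bl y)
    · exact Or.inr (Or.inr (Or.inl ⟨b1, hs7 b1⟩))
    by_cases b2 : B0 Gr ε κ δ P bl (col P bl y) (col P bl x)
    · exact Or.inr (Or.inr (Or.inr (Or.inl ⟨b2, hs8 b2⟩)))
    by_cases g1 : GG Gr ε κ δ P bl (col P bl x) (col P bl y)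
    · refine Or.inl ⟨g1, fun hyx => ?_⟩
      have hlt : y < x := lt_of_le_of_ne hyx hxy.symm
      exact absurd g1.1.2.2.1 (not_lt.2 (hbl y x hlt))
    by_cases g2 : GG Gr ε κ δ P bl (col P bl y) (col P bl x)
    · refine Or.inr (Or.inl ⟨g2, fun hyx => ?_⟩)
      have hlt : x < y := lt_of_le_of_ne hyx hxy
      exact absurd g2.1.2.2.1 (not_lt.2 (hbl x y hlt))
    have key : ¬ Gr.Adj x y := by
      intro hadj
      rcases lt_or_gt_of_ne hb with hlt | hlt
      · exact g1 ⟨⟨hpx, hpy, hlt, hpp, hun, hde hadj, hx, hy⟩, b1⟩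
      · refine g2 ⟨⟨hpy, hpx, hlt, hpp.symm, hun.symm, ?_, hy, hx⟩, b2⟩
        rw [SimpleGraph.edgeDensity_comm]
        exact hde hadj
    rw [hGr] at key
    push Not at key
    refine Or.inr (Or.inr (Or.inr (Or.inr ⟨g1, g2, b1, b2, fun h => ?_, fun h => ?_⟩)))
    · exact key.1 (lt_of_le_of_ne h hxy)
    · exact key.2 (lt_of_le_of_ne h hxy.symm)
  have hcard := card_le_card hsub
  have hun : (D1 ∪ D2 ∪ D3 ∪ D4 ∪ D5 ∪ D6 ∪ D7 ∪ D8).card ≤ D1.card + D2.card + D3.card + D4.card +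
      D5.card + D6.card + D7.card + D8.card := by
    refine (card_union_le _ _).trans (Nat.add_le_add_right ?_ _)
    refine (card_union_le _ _).trans (Nat.add_le_add_right ?_ _)
    refine (card_union_le _ _).trans (Nat.add_le_add_right ?_ _)
    refine (card_union_le _ _).trans (Nat.add_le_add_right ?_ _)
    refine (card_union_le _ _).trans (Nat.add_le_add_right ?_ _)
    refine (card_union_le _ _).trans (Nat.add_le_add_right ?_ _)
    exact card_union_le _ _
  have htot : (((univ : Finset (Q × Q)).filter (fun z => ¬ GoodC (col P bl) (GG Gr ε κ δ P bl)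
      (B0 Gr ε κ δ P bl) z.1 z.2)).card : ℝ) ≤ (D1.card : ℝ) + D2.card + D3.card + D4.card +
      D5.card + D6.card + D7.card + D8.card := by
    exact_mod_cast hcard.trans hun
  nlinarith [htot, c1, c2, c3, c4, c5, c6, c7, c8]

end Pool.Agent.BHalf
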