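import Pool.Agent.Lib_MP_390115_uh.HDef

/-!
# The scheme with heavy positions
-/

namespace Pool.Agent.BHalf

open Pool.Agent.Lib_MP_390115_co (CoverEmbeds IsCoverUniversal b)
open Pool.Agent.BUp (ofLt coverEmbeds_of)

/-- labels which can occur -/
def s3legal (S : Sch3) (l : S.Lam) : Prop :=
  S.ps l ∉ S.D l ∧ S.ps l ∉ S.U l ∧ ∀ q, S.hv q → q ∈ S.D l → q ∈ S.U l → False

/-- heavy conditions -/
def s3H (S : Sch3) (l l' : S.Lam) : Prop :=
  (∀ q, S.hv q → (q ∈ S.D l ∨ q = S.ps l) → q ∈ S.D l') ∧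
  (∀ q, S.hv q → q ∈ S.D l → S.ref (S.ps l') q → q ∈ S.D2 l') ∧
  (∀ q, S.hv q → (q ∈ S.U l' ∨ q = S.ps l') → q ∈ S.U l) ∧
  (∀ q, S.hv q → q ∈ S.U l' → S.ref (S.ps l) q → q ∈ S.U2 l)

/-- a heavy position between -/
def s3via (S : Sch3) (l l' : S.Lam) : Prop := ∃ q, S.hv q ∧ q ∈ S.U l ∧ q ∈ S.D l'

/-- conditions for the light positions -/
def s3part (S : Sch3) (l l' : S.Lam) : Prop :=
  (¬ S.hv (S.ps l) → ¬ S.hv (S.ps l') → S.ps l ∈ S.D l' ∧ S.ps l' ∈ S.U l ∧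
    (∀ q, ¬ S.hv q → q ∈ S.D l → q ∈ S.D l') ∧ (∀ q, ¬ S.hv q → q ∈ S.U l' → q ∈ S.U l)) ∧
  (S.hv (S.ps l) → ¬ S.hv (S.ps l') →
    ∀ q, ¬ S.hv q → S.two (S.ps l) q → q ∈ S.U l' → q ∈ S.U2 l) ∧
  (¬ S.hv (S.ps l) → S.hv (S.ps l') →
    ∀ q, ¬ S.hv q → S.two (S.ps l') q → q ∈ S.D l → q ∈ S.D2 l')

/-- the strict order -/
def s3lt (S : Sch3) (l l' : S.Lam) : Prop :=
  s3legal S l ∧ s3legal S l' ∧ s3H S l l' ∧ (s3via S l l' ∨ s3part S l l')

theorem s3lt_irrefl (S : Sch3) (l : S.Lam) : ¬ s3lt S l l := by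
  rintro ⟨⟨h1, h2, h3⟩, -, ⟨a1, a2, a3, a4⟩, h⟩
  by_cases hh : S.hv (S.ps l)
  · exact h1 (a1 _ hh (Or.inr rfl))
  · rcases h with ⟨q, hq, hU, hD⟩ | h
    · exact h3 q hq hD hU
    · exact h1 (h.1 hh hh).1

theorem s3lt_trans (S : Sch3) (a b c : S.Lam) (h1 : s3lt S a b) (h2 : s3lt S b c) :
    s3lt S a c := by
  obtain ⟨la, lb, ⟨a1, a2, a3, a4⟩, h⟩ := h1
  obtain ⟨-, lc, ⟨b1, b2, b3, b4⟩, k⟩ := h2
  refine ⟨la, lc, ⟨fun q hq hd => b1 q hq (Or.inl (a1 q hq hd)),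
    fun q hq hd hr => b2 q hq (a1 q hq (Or.inl hd)) hr,
    fun q hq hu => a3 q hq (Or.inl (b3 q hq hu)),
    fun q hq hu hr => a4 q hq (b3 q hq (Or.inl hu)) hr⟩, ?_⟩
  rcases h with ⟨q, hq, hU, hD⟩ | h
  · exact Or.inl ⟨q, hq, hU, b1 q hq (Or.inl hD)⟩
  rcases k with ⟨q, hq, hU, hD⟩ | k
  · exact Or.inl ⟨q, hq, a3 q hq (Or.inl hU), hD⟩
  by_cases hb : S.hv (S.ps b)
  · exact Or.inl ⟨S.ps b, hb, a3 _ hb (Or.inr rfl), b1 _ hb (Or.inr rfl)⟩
  · right
    refine ⟨fun ha hc => ?_, fun ha hc => ?_, fun ha hc => ?_⟩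
    · obtain ⟨p1, p2, p3, p4⟩ := h.1 ha hb
      obtain ⟨q1, q2, q3, q4⟩ := k.1 hb hc
      exact ⟨q3 _ ha p1, p4 _ hc q2, fun q hq hd => q3 q hq (p3 q hq hd),
        fun q hq hu => p4 q hq (q4 q hq hu)⟩
    · intro q hq ht hu
      exact h.2.1 ha hb q hq ht ((k.1 hb hc).2.2.2 q hq hu)
    · intro q hq ht hd
      exact k.2.2 hb hc q hq ht ((h.1 ha hb).2.2.1 q hq hd)

/-- The scheme with heavy positions. -/
theorem sch3_embeds (S : Sch3) : ∃ o : PartialOrder S.Lam,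
    ∀ (Q : Type) [PartialOrder Q] (SS : Q → Q → Prop), (∀ x w y : Q, x < w → w < y → SS x y) →
      ∀ (pos : Q → S.P), Function.Bijective pos →
      ∀ lab : Q → S.Lam, (∀ x, S.ps (lab x) = pos x) →
      (∀ x y, S.pl (pos x) (pos y) → (pos y ∈ S.D (lab x) ↔ y < x)) →
      (∀ x y, S.pl (pos x) (pos y) → (pos y ∈ S.U (lab x) ↔ x < y)) →
      (∀ x y, S.ref (pos x) (pos y) → (pos y ∈ S.D2 (lab x) ↔ SS y x)) →
      (∀ x y, S.ref (pos x) (pos y) → (pos y ∈ S.U2 (lab x) ↔ SS x y)) →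
      @CovEmb Q S.Lam _ o SS := by
  refine ⟨ofLt (s3lt S) (s3lt_irrefl S) (s3lt_trans S), ?_⟩
  intro Q _ SS hSS pos hpos lab hps hD hU hD2 hU2
  letI : PartialOrder S.Lam := ofLt (s3lt S) (s3lt_irrefl S) (s3lt_trans S)
  have plh : ∀ p q, S.hv q → S.pl p q := fun p q h => Or.inl h
  have pll : ∀ p q, ¬ S.hv p → S.pl p q := fun p q h => Or.inr h
  have pls : ∀ p, S.pl p p := fun p => em (S.hv p)
  have rhl : ∀ p q, S.hv p → ¬ S.hv q → S.two p q → S.ref p q :=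
    fun p q h1 h2 h3 => Or.inr ⟨h1, h2, h3⟩
  have hfwd : ∀ x y, x < y → s3lt S (lab x) (lab y) := by
    intro x y hxy
    have hleg : ∀ x, s3legal S (lab x) := by
      intro x
      refine ⟨?_, ?_, ?_⟩
      · rw [hps, hD x x (pls _)]
        exact lt_irrefl _
      · rw [hps, hU x x (pls _)]
        exact lt_irrefl _
      · intro q hq h1 h2
        obtain ⟨z, rfl⟩ := hpos.2 q
        rw [hD x z (plh _ _ hq)] at h1
        rw [hU x z (plh _ _ hq)] at h2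
        exact lt_irrefl _ (h1.trans h2)
    refine ⟨hleg x, hleg y, ⟨?_, ?_, ?_, ?_⟩, Or.inr ⟨?_, ?_, ?_⟩⟩
    · intro q hq h
      obtain ⟨z, rfl⟩ := hpos.2 q
      rw [hD y z (plh _ _ hq)]
      rw [hps, hD x z (plh _ _ hq)] at h
      rcases h with h | h
      · exact h.trans hxy
      · rw [hpos.1 h]
        exact hxy
    · intro q hq h hr
      obtain ⟨z, rfl⟩ := hpos.2 q
      rw [hps] at hr
      rw [hD2 y z hr]
      rw [hD x z (plh _ _ hq)] at h
      exact hSS z x y h hxy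
    · intro q hq h
      obtain ⟨z, rfl⟩ := hpos.2 q
      rw [hU x z (plh _ _ hq)]
      rw [hps, hU y z (plh _ _ hq)] at h
      rcases h with h | h
      · exact hxy.trans h
      · rw [hpos.1 h]
        exact hxy
    · intro q hq h hr
      obtain ⟨z, rfl⟩ := hpos.2 q
      rw [hps] at hr
      rw [hU2 x z hr]
      rw [hU y z (plh _ _ hq)] at h
      exact hSS x y z hxy h
    · rw [hps, hps]
      intro hx hy
      refine ⟨(hD y x (pll _ _ hy)).2 hxy, (hU x y (pll _ _ hx)).2 hxy, ?_, ?_⟩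
      · intro q hq h
        obtain ⟨z, rfl⟩ := hpos.2 q
        rw [hD x z (pll _ _ hx)] at h
        rw [hD y z (pll _ _ hy)]
        exact h.trans hxy
      · intro q hq h
        obtain ⟨z, rfl⟩ := hpos.2 q
        rw [hU y z (pll _ _ hy)] at h
        rw [hU x z (pll _ _ hx)]
        exact hxy.trans h
    · rw [hps, hps]
      intro hx hy q hq ht h
      obtain ⟨z, rfl⟩ := hpos.2 q
      rw [hU y z (pll _ _ hy)] at h
      rw [hU2 x z (rhl _ _ hx hq ht)]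
      exact hSS x y z hxy h
    · rw [hps, hps]
      intro hx hy q hq ht h
      obtain ⟨z, rfl⟩ := hpos.2 q
      rw [hD x z (pll _ _ hx)] at h
      rw [hD2 y z (rhl _ _ hy hq ht)]
      exact hSS z x y h hxy
  have hlt : ∀ x y, lab x < lab y ↔ x < y := by
    intro x y
    constructor
    · intro h
      obtain ⟨-, -, ⟨a1, a2, a3, a4⟩, h⟩ := (h : s3lt S (lab x) (lab y))
      rcases h with ⟨q, hq, h1, h2⟩ | h
      · obtain ⟨z, rfl⟩ := hpos.2 q
        rw [hU x z (plh _ _ hq)] at h1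
        rw [hD y z (plh _ _ hq)] at h2
        exact h1.trans h2
      · by_cases hx : S.hv (pos x)
        · have h1 := a1 (pos x) hx (Or.inr (hps x).symm)
          rwa [hD y x (plh _ _ hx)] at h1
        · by_cases hy : S.hv (pos y)
          · have h1 := a3 (pos y) hy (Or.inr (hps y).symm)
            rwa [hU x y (plh _ _ hy)] at h1
          · have h1 := (h.1 (by rwa [hps]) (by rwa [hps])).1
            rw [hps] at h1
            rwa [hD y x (pll _ _ hy)] at h1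
    · exact hfwd x y
  have hinj : Function.Injective lab := fun x y h => hpos.1 (by rw [← hps x, ← hps y, h])
  refine ⟨⟨⟨lab, hinj⟩, ?_⟩, ?_⟩
  · intro x y
    show lab x ≤ lab y ↔ x ≤ y
    rw [le_iff_lt_or_eq, le_iff_lt_or_eq, hlt, hinj.eq_iff]
  · intro x y hxy hno
    refine ⟨(hlt x y).2 hxy, fun c h1 h2 => ?_⟩
    have h1' : s3lt S (lab x) c := h1
    have h2' : s3lt S c (lab y) := h2
    obtain ⟨-, -, ⟨a1, a2, a3, a4⟩, h⟩ := h1'
    obtain ⟨-, -, ⟨b1, b2, b3, b4⟩, k⟩ := h2'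
    obtain ⟨z, hz⟩ := hpos.2 (S.ps c)
    by_cases hc : S.hv (S.ps c)
    · have h3 := a3 _ hc (Or.inr rfl)
      have h4 := b1 _ hc (Or.inr rfl)
      rw [← hz] at h3 h4 hc
      rw [hU x z (plh _ _ hc)] at h3
      rw [hD y z (plh _ _ hc)] at h4
      exact hno (hSS _ _ _ h3 h4)
    rcases h with ⟨q, hq, h3, h4⟩ | h
    · have h5 := b1 q hq (Or.inl h4)
      obtain ⟨w, rfl⟩ := hpos.2 q
      rw [hU x w (plh _ _ hq)] at h3
      rw [hD y w (plh _ _ hq)] at h5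
      exact hno (hSS _ _ _ h3 h5)
    rcases k with ⟨q, hq, h3, h4⟩ | k
    · have h5 := a3 q hq (Or.inl h3)
      obtain ⟨w, rfl⟩ := hpos.2 q
      rw [hU x w (plh _ _ hq)] at h5
      rw [hD y w (plh _ _ hq)] at h4
      exact hno (hSS _ _ _ h5 h4)
    by_cases hx : S.hv (pos x)
    · have hd : pos x ∈ S.D c := a1 _ hx (Or.inr (hps x).symm)
      by_cases hr : S.ref (pos y) (pos x)
      · have h3 := b2 (pos x) hx hd (by rwa [hps])
        rw [hD2 y x hr] at h3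
        exact hno h3
      · have hy : ¬ S.hv (pos y) := fun hy => hr (Or.inl ⟨hx, Or.inl hy⟩)
        have ht : S.two (pos x) (pos y) := by
          by_contra ht
          exact hr (Or.inl ⟨hx, Or.inr ht⟩)
        have h3 := (k.1 hc (by rwa [hps])).2.1
        rw [hps] at h3
        have h4 := h.2.1 (by rwa [hps]) hc (pos y) hy (by rwa [hps]) h3
        rw [hU2 x y (rhl _ _ hx hy ht)] at h4
        exact hno h4
    · by_cases hy : S.hv (pos y)
      · have hu : pos y ∈ S.U c := b3 _ hy (Or.inr (hps y).symm)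
        by_cases hr : S.ref (pos x) (pos y)
        · have h3 := a4 (pos y) hy hu (by rwa [hps])
          rw [hU2 x y hr] at h3
          exact hno h3
        · have ht : S.two (pos y) (pos x) := by
            by_contra ht
            exact hr (Or.inl ⟨hy, Or.inr ht⟩)
          have h3 := (h.1 (by rwa [hps]) hc).1
          rw [hps] at h3
          have h4 := k.2.2 hc (by rwa [hps]) (pos x) hx (by rwa [hps]) h3
          rw [hD2 y x (rhl _ _ hy hx ht)] at h4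
          exact hno h4
      · have h3 := (h.1 (by rwa [hps]) hc).2.1
        have h4 := (k.1 hc (by rwa [hps])).1
        rw [← hz] at h3 h4
        rw [hU x z (pll _ _ hx)] at h3
        rw [hD y z (pll _ _ hy)] at h4
        exact hno (hSS _ _ _ h3 h4)

end Pool.Agent.BHalf
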