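import Pool.Agent.Lib_MP_390115_uh.SplitD

/-!
# Splitting the information between heavy and light positions
-/

namespace Pool.Agent.BHalf

/-- Splitting the information between heavy and light positions (file Split.lean). -/
theorem cost_split {Q : Type} [Fintype Q] (K M n : ℕ) (hM : 0 < M) (hn : Fintype.card Q ≤ n)
    (c : Q → Fin K) (G : Fin K → Fin K → Prop)
    (hG : ∀ i j k, (G i j ∨ G j i) → (G j k ∨ G k j) → ¬ (G i k ∨ G k i)) :
    ∃ (r : Q → Fin M) (hv : Fin K → Prop) (two : Fin K → Fin M → Fin M → Prop),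
      (∀ i j, (G i j ∨ G j i) → hv i → ¬ hv j) ∧
      (∀ x, hv (c x) → (Nat.card {y : Q // (G (c x) (c y) ∨ G (c y) (c x)) ∧
        two (c x) (r x) (r y)} : ℝ) ≤ n / 2 + n / M + K * M) ∧
      (∀ x, ¬ hv (c x) → (Nat.card {y : Q // G (c x) (c y) ∨ G (c y) (c x)} : ℝ) +
        Nat.card {y : Q // (G (c x) (c y) ∨ G (c y) (c x)) ∧ hv (c y) ∧
          ¬ two (c y) (r y) (r x)} ≤ n / 2 + n / M + K * M) :=
  cost_split25 K M n hM hn c G hG

end Pool.Agent.BHalf
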