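import Mathlib

/-!
# Splitting the information between heavy and light positions
-/

namespace Pool.Agent.BHalf

open Finset Classical

/-- an even splitting of the colour classes -/
theorem spd_even {Q : Type} [Fintype Q] {K : ℕ} (M : ℕ) (hM : 0 < M) (c : Q → Fin K) :
    ∃ r : Q → Fin M, ∀ j s, (univ.filter fun y => c y = j ∧ r y = s).card ≤
      (univ.filter fun y => c y = j).card / M + 1 := by
  let S : Fin K → Finset Q := fun j => univ.filter fun y => c y = j
  let f : Fin K → Q → ℕ := fun j y => if h : y ∈ S j then ((S j).equivFin ⟨y, h⟩).val else 0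
  have hf : ∀ j y, y ∈ S j → f j y < (S j).card := by
    intro j y h
    simp only [f, dif_pos h]
    exact Fin.is_lt _
  have hinj : ∀ j y y', y ∈ S j → y' ∈ S j → f j y = f j y' → y = y' := by
    intro j y y' h h' e
    simp only [f, dif_pos h, dif_pos h'] at e
    exact congrArg Subtype.val ((S j).equivFin.injective (Fin.ext e))
  refine ⟨fun y => ⟨f (c y) y % M, Nat.mod_lt _ hM⟩, fun j s => ?_⟩
  have key : (univ.filter fun y => c y = j ∧
      (⟨f (c y) y % M, Nat.mod_lt _ hM⟩ : Fin M) = s).card ≤ (range ((S j).card / M + 1)).card := by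
    refine card_le_card_of_injOn (fun y => f j y / M) ?_ ?_
    · intro y hy
      obtain ⟨-, h1, -⟩ := mem_filter.1 hy
      have hyS : y ∈ S j := by simp [S, h1]
      simp only [coe_range, Set.mem_Iio]
      exact Nat.lt_succ_of_le (Nat.div_le_div_right (hf j y hyS).le)
    · intro y hy y' hy' h
      obtain ⟨-, h1, h2⟩ := mem_filter.1 hy
      obtain ⟨-, h3, h4⟩ := mem_filter.1 hy'
      have hyS : y ∈ S j := by simp [S, h1]
      have hyS' : y' ∈ S j := by simp [S, h3]
      have e2 : f j y % M = s.val := by rw [← h2, h1]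
      have e4 : f j y' % M = s.val := by rw [← h4, h3]
      have h' : f j y / M = f j y' / M := h
      refine hinj j y y' hyS hyS' ?_
      rw [← Nat.div_add_mod (f j y) M, ← Nat.div_add_mod (f j y') M, h', e2, e4]
  rwa [card_range] at key

theorem spd_res_lt {M : ℕ} (a t : ℕ) :
    (univ.filter fun s : Fin M => (a + s.val) % M < t).card ≤ t := by
  have h : (univ.filter fun s : Fin M => (a + s.val) % M < t).card ≤ (range t).card := by
    refine card_le_card_of_injOn (fun s => (a + s.val) % M) ?_ ?_
    · intro s hs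
      simpa using (mem_filter.1 hs).2
    · intro s _ s' _ h
      have h1 : a + s.val ≡ a + s'.val [MOD M] := h
      have h2 : s.val ≡ s'.val [MOD M] := Nat.ModEq.add_left_cancel' a h1
      exact Fin.ext (Nat.ModEq.eq_of_lt_of_lt h2 s.2 s'.2)
  rwa [card_range] at h

theorem spd_res_ge {M : ℕ} (a t : ℕ) :
    (univ.filter fun s : Fin M => t ≤ (a + s.val) % M).card ≤ M - t := by
  rcases Nat.eq_zero_or_pos M with rfl | hM
  · simp
  have h : (univ.filter fun s : Fin M => t ≤ (a + s.val) % M).card ≤ (Ico t M).card := by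
    refine card_le_card_of_injOn (fun s => (a + s.val) % M) ?_ ?_
    · intro s hs
      simp only [coe_Ico, Set.mem_Ico]
      exact ⟨(mem_filter.1 hs).2, Nat.mod_lt _ hM⟩
    · intro s _ s' _ h
      have h1 : a + s.val ≡ a + s'.val [MOD M] := h
      have h2 : s.val ≡ s'.val [MOD M] := Nat.ModEq.add_left_cancel' a h1
      exact Fin.ext (Nat.ModEq.eq_of_lt_of_lt h2 s.2 s'.2)
  rwa [Nat.card_Ico] at h

/-- counting with weights -/
theorem spd_cnt {Q : Type} [Fintype Q] {K M : ℕ} (hM : 0 < M) (c : Q → Fin K) (r : Q → Fin M)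
    (hr : ∀ j s, (univ.filter fun y => c y = j ∧ r y = s).card ≤
      (univ.filter fun y => c y = j).card / M + 1)
    (P : Fin K → Prop) (R : Fin K → Finset (Fin M)) (w : Fin K → ℝ)
    (hw : ∀ j, P j → ((R j).card : ℝ) ≤ w j) (hwM : ∀ j, P j → w j ≤ M) :
    ((univ.filter fun y => P (c y) ∧ r y ∈ R (c y)).card : ℝ) ≤
      (∑ j ∈ univ.filter P, w j * (univ.filter fun y => c y = j).card / M) + K * M := by
  have hMR : (0 : ℝ) < M := by exact_mod_cast hM
  have h1 : (univ.filter fun y => P (c y) ∧ r y ∈ R (c y)) ⊆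
      (univ.filter P).biUnion fun j => (R j).biUnion fun s => univ.filter fun y => c y = j ∧ r y = s := by
    intro y hy
    obtain ⟨-, h2, h3⟩ := mem_filter.1 hy
    simp only [mem_biUnion, mem_filter, mem_univ, true_and]
    exact ⟨c y, h2, r y, h3, rfl, rfl⟩
  have h2 : (univ.filter fun y => P (c y) ∧ r y ∈ R (c y)).card ≤
      ∑ j ∈ univ.filter P, (R j).card * ((univ.filter fun y => c y = j).card / M + 1) := by
    refine (card_le_card h1).trans (card_biUnion_le.trans (sum_le_sum fun j _ => ?_))
    exact card_biUnion_le_card_mul _ _ _ fun s _ => hr j s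
  have h3 : ((univ.filter fun y => P (c y) ∧ r y ∈ R (c y)).card : ℝ) ≤
      ∑ j ∈ univ.filter P, ((R j).card : ℝ) * (((univ.filter fun y => c y = j).card / M + 1 : ℕ) : ℝ) := by
    exact_mod_cast h2
  refine h3.trans ?_
  have h4 : ∀ j ∈ univ.filter P,
      ((R j).card : ℝ) * (((univ.filter fun y => c y = j).card / M + 1 : ℕ) : ℝ) ≤
      w j * (univ.filter fun y => c y = j).card / M + M := by
    intro j hj
    have hP : P j := (mem_filter.1 hj).2
    have h5 : (((univ.filter fun y => c y = j).card / M + 1 : ℕ) : ℝ) ≤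
        (univ.filter fun y => c y = j).card / M + 1 := by
      push_cast
      gcongr
      exact Nat.cast_div_le
    have h6 : 0 ≤ w j := le_trans (Nat.cast_nonneg _) (hw j hP)
    calc ((R j).card : ℝ) * (((univ.filter fun y => c y = j).card / M + 1 : ℕ) : ℝ)
        ≤ w j * ((univ.filter fun y => c y = j).card / M + 1) := by
          apply mul_le_mul (hw j hP) h5 (Nat.cast_nonneg _) h6
      _ = w j * (univ.filter fun y => c y = j).card / M + w j := by ring
      _ ≤ _ := by linarith [hwM j hP]
  refine (sum_le_sum h4).trans ?_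
  rw [sum_add_distrib, sum_const, nsmul_eq_mul]
  have h7 : ((univ.filter P).card : ℝ) ≤ K := by
    have := card_filter_le (univ : Finset (Fin K)) P
    rw [card_univ, Fintype.card_fin] at this
    exact_mod_cast this
  nlinarith [mul_le_mul_of_nonneg_right h7 hMR.le]

theorem cost_split25 {Q : Type} [Fintype Q] (K M n : ℕ) (hM : 0 < M) (hn : Fintype.card Q ≤ n)
    (c : Q → Fin K) (G : Fin K → Fin K → Prop)
    (hG : ∀ i j k, (G i j ∨ G j i) → (G j k ∨ G k j) → ¬ (G i k ∨ G k i)) :
    ∃ (r : Q → Fin M) (hv : Fin K → Prop) (two : Fin K → Fin M → Fin M → Prop),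
      (∀ i j, (G i j ∨ G j i) → hv i → ¬ hv j) ∧
      (∀ x, hv (c x) → (Nat.card {y : Q // (G (c x) (c y) ∨ G (c y) (c x)) ∧
        two (c x) (r x) (r y)} : ℝ) ≤ n / 2 + n / M + K * M) ∧
      (∀ x, ¬ hv (c x) → (Nat.card {y : Q // G (c x) (c y) ∨ G (c y) (c x)} : ℝ) +
        Nat.card {y : Q // (G (c x) (c y) ∨ G (c y) (c x)) ∧ hv (c y) ∧
          ¬ two (c y) (r y) (r x)} ≤ n / 2 + n / M + K * M) := by
  obtain ⟨r, hr⟩ := spd_even M hM c
  have hMR : (0 : ℝ) < M := by exact_mod_cast hM
  obtain ⟨A, hAG⟩ : ∃ A : Fin K → Fin K → Prop, ∀ i j, A i j ↔ (G i j ∨ G j i) :=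
    ⟨fun i j => G i j ∨ G j i, fun _ _ => Iff.rfl⟩
  have hA : ∀ i j, A i j → A j i := fun i j h => (hAG j i).2 ((hAG i j).1 h).symm
  let N : Fin K → ℕ := fun i => (univ.filter fun y => A i (c y)).card
  have hNn : ∀ i, N i ≤ n := fun i => (card_filter_le _ _).trans (by rwa [card_univ])
  have hdisj : ∀ i j, A i j → N i + N j ≤ n := by
    intro i j hij
    have h1 : Disjoint (univ.filter fun y => A i (c y)) (univ.filter fun y => A j (c y)) := by
      rw [disjoint_filter]
      intro y _ h2 h3
      exact hG i (c y) j ((hAG _ _).1 h2) ((hAG _ _).1 (hA _ _ h3)) ((hAG _ _).1 hij)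
    have h2 := card_union_of_disjoint h1
    have h3 : ((univ.filter fun y => A i (c y)) ∪ (univ.filter fun y => A j (c y))).card ≤ n :=
      (card_le_univ _).trans hn
    change N i + N j ≤ n
    rw [h2] at h3
    exact h3
  let t : Fin K → ℕ := fun i => ⌈(M : ℝ) * (1 - n / (2 * N i))⌉₊
  have htM : ∀ i, n < 2 * N i → t i ≤ M := by
    intro i hi
    refine Nat.ceil_le.2 ?_
    have : (0 : ℝ) ≤ n / (2 * N i) := by positivity
    nlinarith
  have htl : ∀ i, (M : ℝ) * (1 - n / (2 * N i)) ≤ t i := fun i => Nat.le_ceil _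
  have htu : ∀ i, n < 2 * N i → (t i : ℝ) ≤ M * (1 - n / (2 * N i)) + 1 := by
    intro i hi
    refine (Nat.ceil_lt_add_one ?_).le
    have h1 : (n : ℝ) < 2 * N i := by exact_mod_cast hi
    have h2 : (0 : ℝ) < 2 * N i := lt_of_le_of_lt (Nat.cast_nonneg n) h1
    have h3 : (n : ℝ) / (2 * N i) ≤ 1 := by rw [div_le_one h2]; exact h1.le
    apply mul_nonneg hMR.le
    linarith
  have hsum : ∀ P : Fin K → Prop, ((univ.filter fun y => P (c y)).card : ℝ) =
      ∑ j ∈ univ.filter P, ((univ.filter fun y => c y = j).card : ℝ) := by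
    intro P
    have h1 : (univ.filter fun y => P (c y)).card =
        ∑ j ∈ univ.filter P, ((univ.filter fun y => P (c y)).filter fun y => c y = j).card := by
      refine card_eq_sum_card_fiberwise fun y hy => ?_
      simpa using hy
    rw [h1]
    push_cast
    refine sum_congr rfl fun j hj => ?_
    congr 2
    ext y
    simp only [mem_filter, mem_univ, true_and]
    constructor
    · exact fun h => h.2
    · intro h
      refine ⟨?_, h⟩
      rw [h]
      exact (mem_filter.1 hj).2
  refine ⟨r, fun i => n < 2 * N i, fun i a b => t i ≤ (a.val + b.val) % M, ?_, ?_, ?_⟩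
  · intro i j hij hi hj
    have := hdisj i j ((hAG _ _).2 hij)
    omega
  · intro x hx
    have h1 : (Nat.card {y : Q // (G (c x) (c y) ∨ G (c y) (c x)) ∧
        t (c x) ≤ ((r x).val + (r y).val) % M}) = (univ.filter fun y => A (c x) (c y) ∧
          r y ∈ (univ.filter fun s : Fin M => t (c x) ≤ ((r x).val + s.val) % M)).card := by
      rw [Nat.card_eq_fintype_card, Fintype.card_subtype]
      congr 1
      ext y
      simp [hAG]
    rw [h1]
    have h2 := spd_cnt hM c r hr (A (c x)) (fun _ => univ.filter fun s : Fin M =>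
      t (c x) ≤ ((r x).val + s.val) % M) (fun _ => (M : ℝ) - t (c x)) (fun j _ => by
        have h3 := spd_res_ge (M := M) (r x).val (t (c x))
        have h4 : ((M - t (c x) : ℕ) : ℝ) = (M : ℝ) - t (c x) := Nat.cast_sub (htM _ hx)
        rw [← h4]
        exact_mod_cast h3) (fun j _ => by linarith [Nat.cast_nonneg (α := ℝ) (t (c x))])
    refine h2.trans ?_
    have h5 : ∑ j ∈ univ.filter (A (c x)), ((M : ℝ) - t (c x)) *
        (univ.filter fun y => c y = j).card / M = ((M : ℝ) - t (c x)) / M * N (c x) := by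
      have h6 := hsum (A (c x))
      change ((N (c x) : ℕ) : ℝ) = _ at h6
      rw [h6, mul_sum]
      exact sum_congr rfl fun j _ => by ring
    rw [h5]
    have hN : (0 : ℝ) < N (c x) := by
      have h7 : (n : ℝ) < 2 * N (c x) := by exact_mod_cast hx
      have h8 := Nat.cast_nonneg (α := ℝ) n
      linarith
    have h9 : ((M : ℝ) - t (c x)) / M * N (c x) ≤ n / 2 := by
      have h10 := htl (c x)
      have h11 : (M : ℝ) - t (c x) ≤ M * (n / (2 * N (c x))) := by linarith
      calc ((M : ℝ) - t (c x)) / M * N (c x) ≤ M * (n / (2 * N (c x))) / M * N (c x) := by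
            gcongr
        _ = n / 2 := by field_simp
    have h12 : (0 : ℝ) ≤ n / M := by positivity
    linarith
  · intro x hx
    have hx' : 2 * N (c x) ≤ n := not_lt.1 hx
    have h1 : (Nat.card {y : Q // G (c x) (c y) ∨ G (c y) (c x)}) = N (c x) := by
      rw [Nat.card_eq_fintype_card, Fintype.card_subtype]
      change _ = (univ.filter fun y => A (c x) (c y)).card
      congr 1
      ext y
      simp [hAG]
    obtain ⟨P, hP⟩ : ∃ P : Fin K → Prop, ∀ i, P i ↔ (A (c x) i ∧ n < 2 * N i) :=
      ⟨fun i => A (c x) i ∧ n < 2 * N i, fun _ => Iff.rfl⟩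
    have h2 : (Nat.card {y : Q // (G (c x) (c y) ∨ G (c y) (c x)) ∧ n < 2 * N (c y) ∧
        ¬ t (c y) ≤ ((r y).val + (r x).val) % M}) =
        (univ.filter fun y => P (c y) ∧
          r y ∈ (univ.filter fun s : Fin M => ((r x).val + s.val) % M < t (c y))).card := by
      rw [Nat.card_eq_fintype_card, Fintype.card_subtype]
      congr 1
      ext y
      simp only [mem_filter, mem_univ, true_and, not_le, hP, hAG, and_assoc]
      rw [add_comm (r y).val]
    rw [h1, h2]
    have h3 := spd_cnt hM c r hr P (fun i => univ.filter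
      fun s : Fin M => ((r x).val + s.val) % M < t i) (fun i => (t i : ℝ)) (fun i _ => by
        exact_mod_cast spd_res_lt (M := M) (r x).val (t i)) (fun i hi => by
        exact_mod_cast htM i ((hP i).1 hi).2)
    by_cases hne : (univ.filter P).Nonempty
    swap
    · rw [not_nonempty_iff_eq_empty] at hne
      rw [hne, sum_empty, zero_add] at h3
      have h4 : (N (c x) : ℝ) ≤ n / 2 := by
        have : (2 : ℝ) * N (c x) ≤ n := by exact_mod_cast hx'
        linarith
      have h12 : (0 : ℝ) ≤ n / M := by positivity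
      linarith
    obtain ⟨i0, hi0, hmax⟩ := exists_max_image _ N hne
    obtain ⟨hi0A, hi0h⟩ := (hP _).1 (mem_filter.1 hi0).2
    have hD : (n : ℝ) < 2 * N i0 := by exact_mod_cast hi0h
    have hn0 := Nat.cast_nonneg (α := ℝ) n
    have hD0 : (0 : ℝ) < N i0 := by linarith
    have h4 : ∑ j ∈ univ.filter P,
        (t j : ℝ) * (univ.filter fun y => c y = j).card / M ≤
        (1 - n / (2 * N i0) + 1 / M) * N (c x) := by
      have h5 : ∀ j ∈ univ.filter P,
          (t j : ℝ) * (univ.filter fun y => c y = j).card / M ≤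
          (1 - n / (2 * N i0) + 1 / M) * (univ.filter fun y => c y = j).card := by
        intro j hj
        obtain ⟨hjA, hjh⟩ := (hP _).1 (mem_filter.1 hj).2
        have h6 := htu j hjh
        have hjh' : (n : ℝ) < 2 * N j := by exact_mod_cast hjh
        have hj0 : (0 : ℝ) < N j := by linarith
        have h7 : (N j : ℝ) ≤ N i0 := by exact_mod_cast hmax j hj
        have h8 : (n : ℝ) / (2 * N i0) ≤ n / (2 * N j) := by gcongr
        have h9 : (t j : ℝ) / M ≤ 1 - n / (2 * N i0) + 1 / M := by
          rw [div_le_iff₀ hMR]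
          have h10 : (1 - n / (2 * N i0) + 1 / M) * (M : ℝ) = M * (1 - n / (2 * N i0)) + 1 := by
            field_simp
          rw [h10]
          nlinarith
        calc (t j : ℝ) * (univ.filter fun y => c y = j).card / M =
            (t j : ℝ) / M * (univ.filter fun y => c y = j).card := by ring
          _ ≤ _ := by gcongr
      refine (sum_le_sum h5).trans ?_
      rw [← mul_sum]
      have h6 : (n : ℝ) / (2 * N i0) ≤ 1 := by
        rw [div_le_one (by linarith)]
        exact hD.le
      have h7 : (0 : ℝ) ≤ 1 - n / (2 * N i0) + 1 / M := by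
        have : (0 : ℝ) ≤ 1 / M := by positivity
        linarith
      refine mul_le_mul_of_nonneg_left ?_ h7
      rw [← hsum P]
      have h8 : (univ.filter fun y => P (c y)).card ≤ N (c x) :=
        card_le_card fun y hy => by
          simp only [mem_filter, mem_univ, true_and] at hy ⊢
          exact ((hP _).1 hy).1
      exact_mod_cast h8
    have h5 : (N (c x) : ℝ) ≤ n - N i0 := by
      have h6 : (N (c x) : ℝ) + N i0 ≤ n := by exact_mod_cast hdisj _ _ hi0A
      linarith
    have h6 : (N (c x) : ℝ) * (2 - n / (2 * N i0)) ≤ n / 2 := by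
      have h7 : (n : ℝ) / (2 * N i0) ≤ 1 := by
        rw [div_le_one (by linarith)]
        exact hD.le
      have h8 : (N (c x) : ℝ) * (2 - n / (2 * N i0)) ≤ (n - N i0) * (2 - n / (2 * N i0)) :=
        mul_le_mul_of_nonneg_right h5 (by linarith)
      have h9 : (n - N i0) * (2 - n / (2 * N i0)) =
          (n : ℝ) / 2 - (n - 2 * N i0) ^ 2 / (2 * N i0) := by
        field_simp
        ring
      have h10 : (0 : ℝ) ≤ (n - 2 * N i0) ^ 2 / (2 * N i0) := by positivity
      linarith
    have h7 : (N (c x) : ℝ) / M ≤ n / M := by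
      gcongr
      exact_mod_cast hNn _
    have h8 : (1 - n / (2 * N i0) + 1 / M) * (N (c x) : ℝ) + N (c x) =
        N (c x) * (2 - n / (2 * N i0)) + N (c x) / M := by ring
    linarith

end Pool.Agent.BHalf
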