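import Pool.Agent.Lib_MP_390115_uh.Sch3
import Pool.Agent.Lib_MP_390115_uh.Cnt
import Pool.Agent.Lib_MP_390115_uh.Split

/-!
# Templates: the concrete scheme with heavy and light positions
-/

namespace Pool.Agent.BHalf

open Pool.Agent.Lib_MP_390115_co (CoverEmbeds IsCoverUniversal b)

/-- forget whether a comparability is a covering -/
def plainc (s : Fin 5) : Fin 5 := if s = 1 then 2 else if s = 3 then 4 else s

/-- keep only the comparabilities which are not coverings -/
def refc (s : Fin 5) : Fin 5 := if s = 1 ∨ s = 3 then 0 else s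

/-- the stored state -/
def code (hp hq tpq tqp : Bool) (s : Fin 5) : Fin 5 :=
  if hq then (if hp then s else if tqp then plainc s else s)
  else if hp then (if tpq then refc s else 0) else plainc s

/-- the expected states -/
def raw (g g' b b' : Bool) : Finset (Fin 5) :=
  if g then {0, 3, 4} else if g' then {0, 1, 2} else if b then {4} else if b' then {2} else {0}

/-- the number of bits -/
def ebits (g g' hp hq tpq tqp : Bool) : ℕ :=
  if g || g' then
    (if hq then (if hp then 2 else if tqp then 1 else 2)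
      else if hp then (if tpq then 1 else 0) else 1)
  else 0

theorem card_code : ∀ g g' b b' hp hq tpq tqp : Bool,
    ((raw g g' b b').image (code hp hq tpq tqp)).card ≤ 2 ^ ebits g g' hp hq tpq tqp := by
  decide

theorem code_D : ∀ (hp hq tpq tqp : Bool) (s : Fin 5), (hq = true ∨ ¬ hp = true) →
    ((code hp hq tpq tqp s = 1 ∨ code hp hq tpq tqp s = 2) ↔ (s = 1 ∨ s = 2)) := by
  decide

theorem code_U : ∀ (hp hq tpq tqp : Bool) (s : Fin 5), (hq = true ∨ ¬ hp = true) →
    ((code hp hq tpq tqp s = 3 ∨ code hp hq tpq tqp s = 4) ↔ (s = 3 ∨ s = 4)) := by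
  decide

theorem code_D2 : ∀ (hp hq tpq tqp : Bool) (s : Fin 5),
    ((hq = true ∧ (hp = true ∨ ¬ tqp = true)) ∨ (hp = true ∧ ¬ hq = true ∧ tpq = true)) →
    (code hp hq tpq tqp s = 2 ↔ s = 2) := by
  decide

theorem code_U2 : ∀ (hp hq tpq tqp : Bool) (s : Fin 5),
    ((hq = true ∧ (hp = true ∨ ¬ tqp = true)) ∨ (hp = true ∧ ¬ hq = true ∧ tpq = true)) →
    (code hp hq tpq tqp s = 4 ↔ s = 4) := by
  decide

open Classical in
/-- the state of `y` relative to `x`: 0 incomparable (or equal), 1 below, 2 below and not covered in the sense of `SS`,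
3 above, 4 above and not covering -/
noncomputable def st {Q : Type} [PartialOrder Q] (SS : Q → Q → Prop) (x y : Q) : Fin 5 :=
  if y < x then (if SS y x then 2 else 1) else if x < y then (if SS x y then 4 else 3) else 0

theorem SL_lt {Q : Type} [PartialOrder Q] {x y : Q} (h : SL x y) : x < y := by
  obtain ⟨w, h1, h2⟩ := h
  exact h1.trans h2

theorem st_D {Q : Type} [PartialOrder Q] (SS : Q → Q → Prop) (x y : Q) :
    (st SS x y = 1 ∨ st SS x y = 2) ↔ y < x := by
  unfold st
  by_cases h1 : y < x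
  · by_cases h2 : SS y x
    · simp [h1, h2]
    · simp [h1, h2]
  · by_cases h2 : x < y
    · by_cases h3 : SS x y
      · simp [h1, h2, h3]
      · simp [h1, h2, h3]
    · simp [h1, h2]

theorem st_U {Q : Type} [PartialOrder Q] (SS : Q → Q → Prop) (x y : Q) :
    (st SS x y = 3 ∨ st SS x y = 4) ↔ x < y := by
  unfold st
  by_cases h1 : y < x
  · have h4 : ¬ x < y := lt_asymm h1
    by_cases h2 : SS y x
    · simp [h1, h2, h4]
    · simp [h1, h2, h4]
  · by_cases h2 : x < y
    · by_cases h3 : SS x y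
      · simp [h1, h2, h3]
      · simp [h1, h2, h3]
    · simp [h1, h2]

theorem st_D2 {Q : Type} [PartialOrder Q] (SS : Q → Q → Prop) (hSS : ∀ x y, SS x y → x < y)
    (x y : Q) : st SS x y = 2 ↔ SS y x := by
  unfold st
  by_cases h1 : y < x
  · by_cases h2 : SS y x
    · simp [h1, h2]
    · simp [h1, h2]
  · have h4 : ¬ SS y x := fun h => h1 (hSS _ _ h)
    by_cases h2 : x < y
    · by_cases h3 : SS x y
      · simp [h1, h2, h3, h4]
      · simp [h1, h2, h3, h4]
    · simp [h1, h2, h4]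

theorem st_U2 {Q : Type} [PartialOrder Q] (SS : Q → Q → Prop) (hSS : ∀ x y, SS x y → x < y)
    (x y : Q) : st SS x y = 4 ↔ SS x y := by
  unfold st
  by_cases h1 : y < x
  · have h4 : ¬ SS x y := fun h => lt_asymm h1 (hSS _ _ h)
    by_cases h2 : SS y x
    · simp [h1, h2, h4]
    · simp [h1, h2, h4]
  · by_cases h2 : x < y
    · by_cases h3 : SS x y
      · simp [h1, h2, h3]
      · simp [h1, h2, h3]
    · have h4 : ¬ SS x y := fun h => h2 (hSS _ _ h)
      simp [h1, h2, h4]

/-- good pairs, with a relation `SS` instead of `SL` -/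
def GoodS {Q : Type} [PartialOrder Q] {K : ℕ} (c : Q → Fin K) (G Bl : Fin K → Fin K → Prop)
    (SS : Q → Q → Prop) (x y : Q) : Prop :=
  (G (c x) (c y) ∧ ¬ y ≤ x) ∨ (G (c y) (c x) ∧ ¬ x ≤ y) ∨ (Bl (c x) (c y) ∧ SS x y) ∨
    (Bl (c y) (c x) ∧ SS y x) ∨
    (¬ G (c x) (c y) ∧ ¬ G (c y) (c x) ∧ ¬ Bl (c x) (c y) ∧ ¬ Bl (c y) (c x) ∧ ¬ x ≤ y ∧ ¬ y ≤ x)

/-- templates: sizes of the refined colour classes, gray and black relation, heavy colours, information -/
abbrev Tm (K M n : ℕ) : Type :=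
  (Fin K × Fin M → Fin (n + 1)) × (Fin K → Fin K → Bool) × (Fin K → Fin K → Bool) ×
    (Fin K → Bool) × (Fin K → Fin M → Fin M → Bool)

variable {K M n : ℕ}

/-- positions -/
abbrev PT (t : Tm K M n) : Type := Σ i : Fin K × Fin M, Fin (t.1 i)

/-- gray -/
def tG (t : Tm K M n) (p q : PT t) : Bool := t.2.1 p.1.1 q.1.1
/-- black -/
def tB (t : Tm K M n) (p q : PT t) : Bool := t.2.2.1 p.1.1 q.1.1
/-- heavy -/
def tH (t : Tm K M n) (p : PT t) : Bool := t.2.2.2.1 p.1.1
/-- information -/
def tT (t : Tm K M n) (p q : PT t) : Bool := t.2.2.2.2 p.1.1 p.1.2 q.1.2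

/-- allowed states -/
def tal (t : Tm K M n) (p q : PT t) : Finset (Fin 5) :=
  (raw (tG t p q) (tG t q p) (tB t p q) (tB t q p)).image
    (code (tH t p) (tH t q) (tT t p q) (tT t q p))

/-- bits -/
def te (t : Tm K M n) (p q : PT t) : ℕ :=
  ebits (tG t p q) (tG t q p) (tH t p) (tH t q) (tT t p q) (tT t q p)

/-- labels -/
abbrev LamT (t : Tm K M n) (m : ℕ) : Type :=
  Σ p : PT t, {f : PT t → Fin 5 // ∃ X : Finset (PT t), X.card ≤ m ∧ ∀ q, q ∉ X → f q ∈ tal t p q}

/-- the scheme of a template -/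
def schT (t : Tm K M n) (m : ℕ) : Sch3 where
  Lam := LamT t m
  P := PT t
  hv p := tH t p = true
  two p q := tT t p q = true
  ps l := l.1
  D l := {q | l.2.1 q = 1 ∨ l.2.1 q = 2}
  D2 l := {q | l.2.1 q = 2}
  U l := {q | l.2.1 q = 3 ∨ l.2.1 q = 4}
  U2 l := {q | l.2.1 q = 4}

/-- valid templates -/
def Valid (t : Tm K M n) (C : ℝ) : Prop :=
  Fintype.card (PT t) ≤ n ∧ ∀ p : PT t, ((∑ q, te t p q : ℕ) : ℝ) ≤ C

theorem good_raw {Q : Type} [PartialOrder Q] {K : ℕ} {c : Q → Fin K} {G Bl : Fin K → Fin K → Prop}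
    {SS : Q → Q → Prop} (hSS : ∀ x y, SS x y → x < y) (hG : ∀ i j, G i j → ¬ G j i ∧ ¬ Bl i j ∧ ¬ Bl j i) (hB : ∀ i j, Bl i j → ¬ Bl j i)
    {x y : Q} (h : GoodS c G Bl SS x y) (g g' b b' : Bool) (e1 : g = true ↔ G (c x) (c y))
    (e2 : g' = true ↔ G (c y) (c x)) (e3 : b = true ↔ Bl (c x) (c y))
    (e4 : b' = true ↔ Bl (c y) (c x)) : st SS x y ∈ raw g g' b b' := by
  rcases h with ⟨h1, h2⟩ | ⟨h1, h2⟩ | ⟨h1, h2⟩ | ⟨h1, h2⟩ | ⟨h1, h2, h3, h4, h5, h6⟩
  · have : g = true := e1.2 h1
    subst this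
    have h3 : ¬ y < x := fun h => h2 h.le
    unfold raw st
    by_cases h4 : x < y
    · by_cases h5 : SS x y
      · simp [h3, h4, h5]
      · simp [h3, h4, h5]
    · simp [h3, h4]
  · have h' : g' = true := e2.2 h1
    have h'' : g = false := by
      rw [← Bool.not_eq_true]
      intro h
      exact (hG _ _ h1).1 (e1.1 h)
    subst h' h''
    have h3 : ¬ x < y := fun h => h2 h.le
    unfold raw st
    by_cases h4 : y < x
    · by_cases h5 : SS y x
      · simp [h4, h5]
      · simp [h4, h5]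
    · simp [h3, h4]
  · have h3 : b = true := e3.2 h1
    have h4 : g = false := by
      rw [← Bool.not_eq_true]
      intro h
      exact (hG _ _ (e1.1 h)).2.1 h1
    have h5 : g' = false := by
      rw [← Bool.not_eq_true]
      intro h
      exact (hG _ _ (e2.1 h)).2.2 h1
    subst h3 h4 h5
    rw [(st_U2 SS hSS x y).2 h2]
    simp [raw]
  · have h3 : b' = true := e4.2 h1
    have h4 : g = false := by
      rw [← Bool.not_eq_true]
      intro h
      exact (hG _ _ (e1.1 h)).2.2 h1
    have h5 : g' = false := by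
      rw [← Bool.not_eq_true]
      intro h
      exact (hG _ _ (e2.1 h)).2.1 h1
    have h6 : b = false := by
      rw [← Bool.not_eq_true]
      intro h
      exact hB _ _ (e3.1 h) h1
    subst h3 h4 h5 h6
    rw [(st_D2 SS hSS x y).2 h2]
    simp [raw]
  · have g1 : g = false := by
      rw [← Bool.not_eq_true]
      exact fun h => h1 (e1.1 h)
    have g2 : g' = false := by
      rw [← Bool.not_eq_true]
      exact fun h => h2 (e2.1 h)
    have g3 : b = false := by
      rw [← Bool.not_eq_true]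
      exact fun h => h3 (e3.1 h)
    have g4 : b' = false := by
      rw [← Bool.not_eq_true]
      exact fun h => h4 (e4.1 h)
    subst g1 g2 g3 g4
    have h7 : ¬ x < y := fun h => h5 h.le
    have h8 : ¬ y < x := fun h => h6 h.le
    unfold raw st
    simp [h7, h8]

end Pool.Agent.BHalf
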